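import Pool.Agent.Torelli.H3.Normal
import Pool.Agent.Torelli.Inter

/-!
# Torelli / H3 / Main : `Tor s 3` is generated by 42 elements
-/

set_option autoImplicit false

namespace Pool.Agent.Torelli.H3

open Pool.Torelli Pool.Torelli.Refl Gen

/-! ## Membership in `IA` -/

/-- number of occurrences -/
def cnt (x : ℕ) : List ℕ → ℕ
  | [] => 0
  | y :: w => bif Nat.beq y x then cnt x w + 1 else cnt x w

/-- exponent sum -/
def ex (k : ℕ) (w : List ℕ) : ℤ := (cnt (2 * k) w : ℤ) - cnt (2 * k + 1) w

theorem cnt_cons (x y : ℕ) (w : List ℕ) : cnt x (y :: w) = if y = x then cnt x w + 1 else cnt x w := by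
  show (bif Nat.beq y x then cnt x w + 1 else cnt x w) = _
  by_cases h : y = x
  · subst h
    rw [Nat.beq_refl, cond_true, if_pos rfl]
  · have : Nat.beq y x = false := by
      rw [Bool.eq_false_iff]; intro hh; exact h (Nat.eq_of_beq_eq_true hh)
    rw [this, cond_false, if_neg h]

theorem ex_cons (k y : ℕ) (w : List ℕ) :
    ex k (y :: w) = (if y = 2 * k then 1 else if y = 2 * k + 1 then -1 else 0) + ex k w := by
  unfold ex
  rw [cnt_cons, cnt_cons]
  by_cases h1 : y = 2 * k
  · have h2 : ¬ (y = 2 * k + 1) := by omega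
    rw [if_pos h1, if_neg h2, if_pos h1]; push_cast; ring
  · by_cases h2 : y = 2 * k + 1
    · rw [if_neg h1, if_pos h2, if_neg h1, if_pos h2]; push_cast; ring
    · rw [if_neg h1, if_neg h2, if_neg h1, if_neg h2]; ring

theorem evalW_comm {G : Type*} [CommGroup G] (e : ℕ → G) (m : ℕ) (w : List ℕ)
    (hw : wfW m w = true) : evalW e w = ∏ k ∈ Finset.range m, e k ^ (ex k w) := by
  induction w with
  | nil => simp [ex, cnt]
  | cons x w ih =>
    have hx : ∀ y ∈ x :: w, y < 2 * m := (wfW_iff m _).1 hw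
    have hw' : wfW m w = true := (wfW_iff m _).2 fun y hy => hx y (List.mem_cons_of_mem _ hy)
    have hxm := hx x List.mem_cons_self
    rw [evalW_cons, ih hw']
    have h1 : ∏ k ∈ Finset.range m, e k ^ (ex k (x :: w)) =
        (∏ k ∈ Finset.range m, e k ^ (if x = 2 * k then (1 : ℤ) else if x = 2 * k + 1 then -1 else 0)) *
          ∏ k ∈ Finset.range m, e k ^ (ex k w) := by
      rw [← Finset.prod_mul_distrib]
      apply Finset.prod_congr rfl
      intro k _
      rw [ex_cons, zpow_add]
    rw [h1]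
    congr 1
    rw [Finset.prod_eq_single (x / 2)]
    · rcases Nat.even_or_odd' x with ⟨i, hi | hi⟩
      · have : x / 2 = i := by omega
        rw [this, if_pos hi, zpow_one, hi, evalL_even]
      · have h2 : x / 2 = i := by omega
        have h3 : ¬ (x = 2 * i) := by omega
        rw [h2, if_neg h3, if_pos hi, zpow_neg, zpow_one, hi, evalL_odd]
    · intro k _ hk
      have h2 : ¬ (x = 2 * k) := by omega
      have h3 : ¬ (x = 2 * k + 1) := by omega
      rw [if_neg h2, if_neg h3, zpow_zero]
    · intro h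
      exact absurd (Finset.mem_range.2 (by omega)) h

theorem map_evalL {G G' : Type*} [Group G] [Group G'] (f : G →* G') (e : ℕ → G) (x : ℕ) :
    f (evalL e x) = evalL (fun n => f (e n)) x := by
  unfold evalL
  cases Nat.beq (x % 2) 0
  · simp only [cond_false, map_inv]
  · simp only [cond_true]

theorem map_evalW {G G' : Type*} [Group G] [Group G'] (f : G →* G') (e : ℕ → G) (w : List ℕ) :
    f (evalW e w) = evalW (fun n => f (e n)) w := by
  induction w with
  | nil => simp
  | cons x w ih => rw [evalW_cons, evalW_cons, map_mul, ih, map_evalL]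

/-- check of the exponent sums -/
def chkIA (L : List (List ℕ)) : Bool :=
  (List.range 6).all fun i => wfW 6 (L.getD i []) && (List.range 6).all fun k =>
    Nat.beq (cnt (2 * k) (L.getD i [])) (cnt (2 * k + 1) (L.getD i []) + bif Nat.beq k i then 1 else 0)

theorem Rep.mem_IA {s : ℕ} {φ : MulAut F} {L : List (List ℕ)} (h : Rep s φ L)
    (hL : chkIA L = true) : φ ∈ IA := by
  rw [mem_IA_iff_of]
  intro n
  by_cases hn : n < 2 * s ∨ 2 * (s + 3) ≤ n
  · rw [M_fix_of h.mem hn]
  · obtain ⟨i, rfl⟩ : ∃ k, n = 2 * s + k := ⟨n - 2 * s, by omega⟩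
    have hi : i < 6 := by omega
    have h1 : φ (FreeGroup.of (2 * s + i)) = evalW (eS s) (L.getD i []) := h.imp i hi
    have h2 := List.all_eq_true.1 hL i (List.mem_range.2 hi)
    rw [Bool.and_eq_true] at h2
    rw [h1, map_evalW, evalW_comm _ 6 _ h2.1]
    have h3 : ∀ k ∈ Finset.range 6, (cl (eS s k)) ^ (ex k (L.getD i [])) =
        if k = i then cl (eS s i) else 1 := by
      intro k hk
      have h4 := List.all_eq_true.1 h2.2 k (List.mem_range.2 (Finset.mem_range.1 hk))
      have h5 := Nat.eq_of_beq_eq_true h4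
      by_cases hki : k = i
      · have hb : Nat.beq k i = true := by rw [hki]; exact Nat.beq_refl i
        rw [hb, cond_true] at h5
        rw [if_pos hki, hki]
        rw [hki] at h5
        have : ex i (L.getD i []) = 1 := by unfold ex; rw [h5]; push_cast; ring
        rw [this, zpow_one]
      · have hb : Nat.beq k i = false := by
          rw [Bool.eq_false_iff]; intro hh; exact hki (Nat.eq_of_beq_eq_true hh)
        rw [hb, cond_false] at h5
        rw [if_neg hki]
        have : ex k (L.getD i []) = 0 := by unfold ex; rw [h5]; push_cast; ring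
        rw [this, zpow_zero]
    rw [Finset.prod_congr rfl h3, Finset.prod_ite_eq' (Finset.range 6) i]
    rw [if_pos (Finset.mem_range.2 hi)]
    rfl

theorem IA_ok : (List.range' 8 43).all (fun n => chkIA (An n)) = true := by decide +kernel

theorem E_mem_Tor (s n : ℕ) (h1 : 8 ≤ n) (h2 : n < 51) : E s n ∈ Tor s 3 := by
  have h3 := ((fam s) n h2).1
  exact ⟨h3.mem, h3.mem_IA (List.all_eq_true.1 IA_ok n (by rw [List.mem_range'_1]; omega))⟩

theorem J_le_Tor (s : ℕ) : J s ≤ Tor s 3 := by
  unfold J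
  rw [Subgroup.closure_le]
  rintro φ ⟨n, h1, h2, rfl⟩
  exact E_mem_Tor s n h1 h2

/-! ## `TD s` and `BP s` -/

theorem conj_mem_J {s : ℕ} {θ x : MulAut F} (hθ : θ ∈ M s 3) (hx : x ∈ J s) :
    θ * x * θ⁻¹ ∈ J s :=
  (Subgroup.mem_normalizer_iff.1 (M_le_norm s hθ) x).1 hx

theorem BP_mem_J (s : ℕ) : BP s ∈ J s := by
  have h : BP s = (E s 8)⁻¹ := by
    rw [E_base s 8 (by omega), BP_eq, ← evWord_invWd]
    exact evWord_eq 6 _ _ (by decide +kernel) s
  rw [h]
  exact inv_mem (E_mem_J (by omega) (by omega))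

/-- first conjugator -/
def g1 : List (Gen × Bool) :=
  [(A 1, true), (A 2, false), (B 2, true), (C 1, false), (C 0, true), (B 0, false), (A 0, true),
   (A 0, true), (B 0, false), (C 0, true), (A 1, true), (B 1, false)]
/-- second conjugator -/
def g2 : List (Gen × Bool) :=
  [(A 1, true), (C 0, true), (B 0, false), (A 0, true), (A 0, true), (B 0, false), (C 0, true),
   (A 1, true), (B 1, false)]
/-- third conjugator -/
def g3 : List (Gen × Bool) :=
  [(C 1, false), (B 1, true), (C 1, true), (B 2, true), (C 1, false), (C 0, true), (B 0, false),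
   (A 0, true), (A 0, true), (B 0, false), (C 0, true), (A 1, true), (B 1, false)]

theorem TD_mem_J (s : ℕ) : TD s ∈ J s := by
  have h : TD s * (evWord s g1 * BP s * (evWord s g1)⁻¹) =
      (evWord s g2 * BP s * (evWord s g2)⁻¹) * (evWord s g3 * BP s * (evWord s g3)⁻¹) := by
    rw [TD_eq, BP_eq, ← evWord_invWd, ← evWord_invWd, ← evWord_invWd]
    simp only [← evWord_append]
    exact evWord_eq 6 _ _ (by decide +kernel) s
  have m1 : evWord s g1 ∈ M s 3 := evWord_mem_M s 3 g1 (by decide +kernel)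
  have m2 : evWord s g2 ∈ M s 3 := evWord_mem_M s 3 g2 (by decide +kernel)
  have m3 : evWord s g3 ∈ M s 3 := evWord_mem_M s 3 g3 (by decide +kernel)
  have hb := BP_mem_J s
  rw [eq_mul_inv_of_mul_eq h]
  exact mul_mem (mul_mem (conj_mem_J m2 hb) (conj_mem_J m3 hb)) (inv_mem (conj_mem_J m1 hb))

theorem JJ_le_J (s : ℕ) : JJ s 3 ≤ J s := by
  unfold JJ
  rw [Subgroup.closure_le]
  rintro φ ⟨θ, hθ, rfl | ⟨_, rfl⟩⟩
  · exact conj_mem_J hθ (TD_mem_J s)
  · exact conj_mem_J hθ (BP_mem_J s)

theorem J_eq_Tor {s : ℕ} (hE : Tor s 3 = JJ s 3) : J s = Tor s 3 :=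
  le_antisymm (J_le_Tor s) (hE ▸ JJ_le_J s)

/-! ## 42 generators -/

/-- the generators: all but the automorphism `34` -/
noncomputable def gens (s : ℕ) (i : Fin 42) : MulAut F :=
  E s (if i.1 + 8 < 34 then i.1 + 8 else i.1 + 9)

theorem E_mem_gens (s n : ℕ) (h1 : 8 ≤ n) (h2 : n < 51) (h3 : n ≠ 34) :
    E s n ∈ Subgroup.closure (Set.range (gens s)) := by
  apply Subgroup.subset_closure
  by_cases h : n < 34
  · refine ⟨⟨n - 8, by omega⟩, ?_⟩
    have e : n - 8 + 8 = n := by omega
    simp only [gens, e, if_pos h]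
  · refine ⟨⟨n - 9, by omega⟩, ?_⟩
    have e1 : ¬ (n - 9 + 8 < 34) := by omega
    have e2 : n - 9 + 9 = n := by omega
    simp only [gens, if_neg e1, e2]

theorem E34_mem (s : ℕ) : E s 34 ∈ Subgroup.closure (Set.range (gens s)) := by
  have h := word_eq s _ _ rel_ok
  have e : relW = [18, 23, 28, 37, 46, 57] ++ (2 * 34) :: [101, 101] := rfl
  rw [e, evalW_append, evalW_cons (E s) (2 * 34), evalL_even, evalW_nil] at h
  have h1 : evalW (E s) [18, 23, 28, 37, 46, 57] ∈ Subgroup.closure (Set.range (gens s)) := by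
    apply evalW_mem
    intro x hx
    simp only [List.mem_cons, List.not_mem_nil, or_false] at hx
    exact E_mem_gens s _ (by omega) (by omega) (by omega)
  have h2 : evalW (E s) [101, 101] ∈ Subgroup.closure (Set.range (gens s)) := by
    apply evalW_mem
    intro x hx
    simp only [List.mem_cons, List.not_mem_nil, or_false] at hx
    exact E_mem_gens s _ (by omega) (by omega) (by omega)
  have h3 : E s 34 = (evalW (E s) [18, 23, 28, 37, 46, 57])⁻¹ * (evalW (E s) [101, 101])⁻¹ := by
    rw [eq_mul_inv_iff_mul_eq, eq_inv_iff_mul_eq_one]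
    have h4 := eq_inv_of_mul_eq_one_right h
    rw [h4]; group
  rw [h3]
  exact mul_mem (inv_mem h1) (inv_mem h2)

theorem closure_gens (s : ℕ) : Subgroup.closure (Set.range (gens s)) = J s := by
  apply le_antisymm
  · rw [Subgroup.closure_le]
    rintro φ ⟨i, rfl⟩
    unfold gens
    have := i.2
    split_ifs
    · exact E_mem_J (by omega) (by omega)
    · exact E_mem_J (by omega) (by omega)
  · conv_lhs => unfold J
    rw [Subgroup.closure_le]
    rintro φ ⟨n, h1, h2, rfl⟩
    by_cases h : n = 34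
    · rw [h]; exact E34_mem s
    · exact E_mem_gens s n h1 h2 h

/-- **part H**: `Tor s 3` is generated by 42 elements -/
theorem genN_three {s : ℕ} (hE : Tor s 3 = JJ s 3) : GenN (Tor s 3) 42 :=
  ⟨gens s, by rw [closure_gens, J_eq_Tor hE]⟩

end Pool.Agent.Torelli.H3
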