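import Pool.Agent.Torelli.H3.CheckDefs

/-!
# Torelli / H3 / Check1 : the conjugation tables
-/

set_option autoImplicit false

namespace Pool.Agent.Torelli.H3

open Pool.Torelli Pool.Torelli.Refl Gen

theorem row0 : chkRow 0 = true := by decide +kernel
theorem row1 : chkRow 1 = true := by decide +kernel
theorem row2 : chkRow 2 = true := by decide +kernel
theorem row3 : chkRow 3 = true := by decide +kernel

end Pool.Agent.Torelli.H3
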