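import Pool.Agent.Torelli.H3.CheckDefs

/-!
# Torelli / H3 / Check2 : the conjugation tables
-/

set_option autoImplicit false

namespace Pool.Agent.Torelli.H3

open Pool.Torelli Pool.Torelli.Refl Gen

theorem row4 : chkRow 4 = true := by decide +kernel
theorem row5 : chkRow 5 = true := by decide +kernel
theorem row6 : chkRow 6 = true := by decide +kernel
theorem row7 : chkRow 7 = true := by decide +kernel

end Pool.Agent.Torelli.H3
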