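import Pool.Agent.Torelli.H3.CheckDefs

/-!
# Torelli / H3 / Check3 : the conjugation tables
-/

set_option autoImplicit false

namespace Pool.Agent.Torelli.H3

open Pool.Torelli Pool.Torelli.Refl Gen

theorem row8 : chkRow 8 = true := by decide +kernel
theorem row9 : chkRow 9 = true := by decide +kernel
theorem row10 : chkRow 10 = true := by decide +kernel
theorem row11 : chkRow 11 = true := by decide +kernel

end Pool.Agent.Torelli.H3
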