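import Pool.Agent.Torelli.H3.CheckDefs

/-!
# Torelli / H3 / Check4 : the conjugation tables
-/

set_option autoImplicit false

namespace Pool.Agent.Torelli.H3

open Pool.Torelli Pool.Torelli.Refl Gen

/-- the representatives for the letter `T7` -/
theorem tR_ok : tR.all (fun t => chkC 12 t.1 t.2.1 && chkC 13 t.1 t.2.2) = true := by
  decide +kernel

/-- the others: `t.1` is the conjugate of `t.2.2` by the letter `2 * t.2.1`, which commutes
with `T7` -/
def chkU (t : ℕ × ℕ × ℕ) : Bool :=
  Nat.blt t.1 51 && Nat.blt t.2.2 t.1 && Nat.ble 8 t.2.2 && Nat.ble t.2.1 5 &&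
    chkW [2 * t.2.1, 2 * t.2.2, 2 * t.2.1 + 1] [2 * t.1] &&
    chkW [2 * t.2.1, 12] [12, 2 * t.2.1]

theorem tU_ok : tU.all chkU = true := by decide +kernel

/-- every index is in one of the two tables -/
theorem cover : (List.range' 8 43).all (fun n =>
    (tR.any fun t => Nat.beq t.1 n) || (tU.any fun t => Nat.beq t.1 n)) = true := by
  decide +kernel

/-- `T8` is conjugate to `T7` -/
def gT8 : List ℕ := [11, 9, 7, 4, 2, 13, 6, 8, 10, 4, 6, 8, 0, 2, 4, 6]

theorem T8_ok : chkW (14 :: gT8) (gT8 ++ [12]) = true := by decide +kernel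

/-- the relation between the seven six-chains and the boundary twist -/
def relW : List ℕ := [18, 23, 28, 37, 46, 57, 68, 101, 101]

theorem rel_ok : chkW relW [] = true := by decide +kernel

end Pool.Agent.Torelli.H3
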