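import Pool.Agent.Torelli.H3.Elem

/-!
# Torelli / H3 / CheckDefs : the conjugation tables
-/

set_option autoImplicit false

namespace Pool.Agent.Torelli.H3

open Pool.Torelli Pool.Torelli.Refl Gen

/-- all letters of a word are letters of the automorphisms `8, ..., 50` -/
def inJ (w : List ℕ) : Bool := w.all fun x => Nat.ble 16 x && Nat.blt x 102

/-- conjugation of the automorphism `n` by the letter `x` gives the word `w` -/
def chkC (x n : ℕ) (w : List ℕ) : Bool := inJ w && chkW [x, 2 * n, invL x] w

/-- the row of the letter `x` -/
def chkRow (x : ℕ) : Bool :=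
  (List.range 43).all fun n => chkC x (8 + n) ((tC.getD x []).getD n [])

end Pool.Agent.Torelli.H3
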