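import Pool.Agent.Torelli.H3.Rep
import Pool.Agent.Torelli.Words

/-!
# Torelli / H3 / Data : image lists

Index `0, ..., 7`: the automorphisms `T1, ..., T8`; index `8, ..., 49`: the generators `K(I)`,
`I` a subset of `{1, ..., 7}` with four or six elements; index `50`: the boundary twist.
`tA` are the image lists of the automorphisms, `tB` of the inverses.  Letter `2 k` is the `k`-th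
letter of the block, `2 k + 1` its inverse.
-/

set_option autoImplicit false

namespace Pool.Agent.Torelli.H3

open Pool.Torelli Pool.Torelli.Refl Gen

/-- image lists -/
def tA : List (List (List ℕ)) := [
  [[0], [2, 1], [4], [6], [8], [10]],
  [[0, 2], [2], [4], [6], [8], [10]],
  [[0], [2, 1, 3, 4, 2], [2, 1, 3, 4, 2, 0, 3], [6, 5, 2, 0, 3], [8], [10]],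
  [[0], [2], [4, 6], [6], [8], [10]],
  [[0], [2], [4], [6, 5, 7, 8, 6], [6, 5, 7, 8, 6, 4, 7], [10, 9, 6, 4, 7]],
  [[0], [2], [4], [6], [8, 10], [10]],
  [[0], [2], [4], [6, 5], [8], [10]],
  [[0], [2], [4], [6], [8], [10, 9]],
  [[0, 2, 1, 3, 4, 0, 5, 2, 0, 3, 1], [0, 2, 1, 3, 4, 2, 5, 2, 0, 3, 1], [0, 2, 1, 3, 4, 2, 0, 3,
    1], [6, 2, 0, 3, 1], [8], [10]],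
  [[0, 2, 1, 3, 4, 6, 5, 7, 8, 0, 9, 6, 4, 7, 5, 2, 0, 3, 1], [0, 2, 1, 3, 4, 6, 5, 7, 8, 2, 9, 6,
    4, 7, 5, 2, 0, 3, 1], [0, 2, 1, 3, 4, 6, 5, 7, 8, 4, 9, 6, 4, 7, 5, 2, 0, 3, 1], [0, 2, 1, 3,
    4, 6, 5, 7, 8, 6, 9, 6, 4, 7, 5, 2, 0, 3, 1], [0, 2, 1, 3, 4, 6, 5, 7, 8, 6, 4, 7, 5, 2, 0, 3,
    1], [10, 6, 4, 7, 5, 2, 0, 3, 1]],
  [[0, 2, 1, 3, 4, 6, 0, 7, 5, 2, 0, 3, 1], [0, 2, 1, 3, 4, 6, 2, 7, 5, 2, 0, 3, 1], [0, 2, 1, 3,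
    4], [6, 2, 0, 3, 1], [8], [10]],
  [[0, 2, 1, 3, 4, 6, 5, 7, 8, 10, 0, 11, 9, 6, 4, 7, 5, 2, 0, 3, 1], [0, 2, 1, 3, 4, 6, 5, 7, 8,
    10, 2, 11, 9, 6, 4, 7, 5, 2, 0, 3, 1], [0, 2, 1, 3, 4, 6, 5, 7, 8, 10, 4, 11, 9, 6, 4, 7, 5,
    2, 0, 3, 1], [0, 2, 1, 3, 4, 6, 5, 7, 8, 10, 6, 11, 9, 6, 4, 7, 5, 2, 0, 3, 1], [0, 2, 1, 3,
    4, 6, 5, 7, 8], [10, 6, 4, 7, 5, 2, 0, 3, 1]],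
  [[0, 2, 1, 3, 4, 6, 5, 2, 0, 3, 0, 2, 1, 3, 4, 7, 5, 2, 0, 3, 1], [6, 2, 0, 2, 1, 3, 4, 7, 5, 2,
    0, 3, 1], [6, 2, 0, 3, 7, 0, 2, 1, 3, 4, 6, 2, 1, 3, 7], [6, 2, 0, 3, 6, 2, 1, 3, 7], [8],
    [10]],
  [[0, 2, 1, 3, 4, 6, 5, 7, 8, 6, 0, 7, 9, 6, 4, 7, 5, 2, 0, 3, 1], [0, 2, 1, 3, 4, 6, 5, 7, 8, 6,
    2, 7, 9, 6, 4, 7, 5, 2, 0, 3, 1], [0, 2, 1, 3, 4], [6], [6, 0, 2, 1, 3, 7, 8, 6, 2, 0, 3, 1,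
    7], [10, 6, 2, 0, 3, 1, 7]],
  [[0, 2, 1, 3, 4, 6, 5, 7, 8, 10, 9, 6, 4, 7, 0, 6, 5, 7, 8, 11, 9, 6, 4, 7, 5, 2, 0, 3, 1], [0,
    2, 1, 3, 4, 6, 5, 7, 8, 10, 9, 6, 4, 7, 2, 6, 5, 7, 8, 11, 9, 6, 4, 7, 5, 2, 0, 3, 1], [0, 2,
    1, 3, 4, 6, 5, 7, 8, 10, 9, 6, 4, 7, 4, 6, 5, 7, 8, 11, 9, 6, 4, 7, 5, 2, 0, 3, 1], [10, 6, 4,
    6, 5, 7, 8, 11, 9, 6, 4, 7, 5, 2, 0, 3, 1], [10, 6, 4, 7, 11, 0, 2, 1, 3, 4, 6, 5, 7, 8, 10,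
    6, 5, 7, 11], [10, 6, 4, 7, 10, 6, 5, 7, 11]],
  [[0, 2, 1, 3, 4, 6, 5, 2, 0, 3, 7], [6, 2, 0, 2, 1, 3, 4, 7, 5, 2, 0, 3, 1], [6, 2, 0, 7, 0, 2,
    1, 3, 4, 6, 1, 3, 7], [6, 2, 0, 6, 1, 3, 7], [8], [10]],
  [[0, 2, 1, 3, 4, 6, 5, 7, 8, 6, 5, 2, 0, 3, 0, 2, 1, 3, 4, 7, 9, 6, 4, 7, 5, 2, 0, 3, 1], [6, 5,
    7, 8, 6, 2, 0, 2, 1, 3, 4, 7, 9, 6, 4, 7, 5, 2, 0, 3, 1], [6, 5, 7, 8, 6, 2, 0, 3, 7, 9, 6, 4,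
    7, 0, 2, 1, 3, 4, 6, 5, 7, 8, 6, 2, 1, 3, 7, 9, 6, 4, 7], [6, 5, 2, 0, 3, 0, 2, 1, 3, 4, 6, 5,
    7, 8, 6, 2, 1, 3, 7, 9, 6, 4, 7], [6, 5, 2, 0, 3, 0, 2, 1, 3, 4, 2, 1, 3, 7, 8, 6, 2, 0, 3, 5,
    2, 0, 3, 1, 2, 1, 3, 4, 7], [10, 6, 2, 0, 3, 5, 2, 0, 3, 1, 2, 1, 3, 4, 7]],
  [[0, 2, 1, 3, 4, 6, 5, 7, 8, 10, 6, 0, 7, 11, 9, 6, 4, 7, 5, 2, 0, 3, 1], [0, 2, 1, 3, 4, 6, 5,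
    7, 8, 10, 6, 2, 7, 11, 9, 6, 4, 7, 5, 2, 0, 3, 1], [0, 2, 1, 3, 4], [6], [6, 0, 2, 1, 3, 7,
    8], [10, 6, 2, 0, 3, 1, 7]],
  [[0, 2, 1, 3, 4, 6, 5, 7, 8, 10, 9, 6, 4, 0, 5, 7, 8, 11, 9, 6, 4, 7, 5, 2, 0, 3, 1], [0, 2, 1,
    3, 4, 6, 5, 7, 8, 10, 9, 6, 4, 2, 5, 7, 8, 11, 9, 6, 4, 7, 5, 2, 0, 3, 1], [0, 2, 1, 3, 4, 6,
    5, 7, 8, 10, 9, 6, 4, 7, 11], [10, 6, 4, 6, 5, 7, 8, 11, 9, 6, 4, 7, 5, 2, 0, 3, 1], [10, 6,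
    4, 11, 0, 2, 1, 3, 4, 6, 5, 7, 8, 10, 5, 7, 11], [10, 6, 4, 10, 5, 7, 11]],
  [[0, 2, 1, 3, 4, 6, 5, 2, 0, 3, 7], [6, 2, 7], [6, 2, 7, 0, 2, 1, 3, 4, 6, 3, 7], [6, 2, 6, 3,
    7], [8], [10]],
  [[0, 2, 1, 3, 4, 6, 5, 7, 8, 6, 5, 2, 0, 3, 7, 9, 6, 4, 7], [6, 5, 7, 8, 6, 2, 0, 2, 1, 3, 4, 7,
    9, 6, 4, 7, 5, 2, 0, 3, 1], [6, 5, 7, 8, 6, 2, 0, 7, 9, 6, 4, 7, 0, 2, 1, 3, 4, 6, 5, 7, 8, 6,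
    1, 3, 7, 9, 6, 4, 7], [6, 5, 2, 0, 0, 2, 1, 3, 4, 6, 5, 7, 8, 6, 1, 3, 7, 9, 6, 4, 7], [6, 5,
    2, 0, 0, 2, 1, 3, 4, 1, 3, 7, 8, 6, 2, 0, 5, 2, 0, 3, 1, 1, 3, 4, 7], [10, 6, 2, 0, 5, 2, 0,
    3, 1, 1, 3, 4, 7]],
  [[0, 2, 1, 3, 4, 6, 5, 7, 8, 5, 2, 0, 3, 0, 2, 1, 3, 4, 9, 6, 4, 7, 5, 2, 0, 3, 1], [5, 7, 8, 6,
    2, 0, 2, 1, 3, 4, 9, 6, 4, 7, 5, 2, 0, 3, 1], [5, 7, 8, 6, 2, 0, 3, 7, 9, 6, 4, 2, 1, 3, 4],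
    [5, 2, 0, 3, 0, 2, 1, 3, 4, 6, 5, 7, 8, 6, 2, 1, 3, 7, 9, 6, 4], [5, 2, 0, 3, 0, 2, 1, 3, 4,
    6, 2, 1, 3, 7, 8, 6, 2, 0, 3, 7, 5, 2, 0, 3, 1, 2, 1, 3, 4], [10, 6, 2, 0, 3, 7, 5, 2, 0, 3,
    1, 2, 1, 3, 4]],
  [[0, 2, 1, 3, 4, 6, 5, 7, 8, 10, 6, 5, 2, 0, 3, 0, 2, 1, 3, 4, 7, 11, 9, 6, 4, 7, 5, 2, 0, 3,
    1], [6, 5, 7, 8, 10, 6, 2, 0, 2, 1, 3, 4, 7, 11, 9, 6, 4, 7, 5, 2, 0, 3, 1], [6, 5, 7, 8, 10,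
    6, 2, 0, 3, 7, 11, 9, 6, 4, 7, 0, 2, 1, 3, 4, 6, 5, 7, 8, 10, 6, 2, 1, 3, 7, 11, 9, 6, 4, 7],
    [6, 5, 2, 0, 3, 0, 2, 1, 3, 4, 6, 5, 7, 8, 10, 6, 2, 1, 3, 7, 11, 9, 6, 4, 7], [6, 5, 2, 0, 3,
    0, 2, 1, 3, 4, 2, 1, 3, 7, 8], [10, 6, 2, 0, 3, 5, 2, 0, 3, 1, 2, 1, 3, 4, 7]],
  [[0, 2, 1, 3, 4, 6, 5, 7, 8, 10, 9, 6, 2, 0, 3, 0, 2, 1, 3, 7, 8, 11, 9, 6, 4, 7, 5, 2, 0, 3,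
    1], [10, 6, 2, 0, 2, 1, 3, 7, 8, 11, 9, 6, 4, 7, 5, 2, 0, 3, 1], [10, 6, 2, 0, 3, 7, 11, 0, 2,
    1, 3, 4, 6, 5, 7, 8, 10, 9, 6, 4, 2, 1, 3, 7, 11], [10, 6, 2, 0, 3, 6, 2, 1, 3, 7, 11], [10,
    6, 2, 0, 3, 11, 0, 2, 1, 3, 4, 6, 5, 7, 8, 10, 2, 1, 3, 7, 11], [10, 6, 2, 0, 3, 10, 2, 1, 3,
    7, 11]],
  [[0, 2, 1, 3, 4, 6, 5, 7, 8, 6, 5, 2, 0, 3, 7, 9, 6, 4, 7], [6, 5, 7, 8, 6, 2, 7, 9, 6, 4, 7],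
    [6, 5, 7, 8, 6, 2, 7, 9, 6, 4, 7, 0, 2, 1, 3, 4, 6, 5, 7, 8, 6, 3, 7, 9, 6, 4, 7], [6, 5, 2,
    0, 2, 1, 3, 4, 6, 5, 7, 8, 6, 3, 7, 9, 6, 4, 7], [6, 5, 2, 0, 2, 1, 3, 4, 3, 7, 8, 6, 2, 5, 2,
    0, 3, 1, 3, 4, 7], [10, 6, 2, 5, 2, 0, 3, 1, 3, 4, 7]],
  [[0, 2, 1, 3, 4, 6, 5, 7, 8, 5, 2, 0, 3, 7, 9, 6, 4], [5, 7, 8, 6, 2, 0, 2, 1, 3, 4, 9, 6, 4, 7,
    5, 2, 0, 3, 1], [5, 7, 8, 6, 2, 0, 7, 9, 6, 4, 1, 3, 4], [5, 2, 0, 0, 2, 1, 3, 4, 6, 5, 7, 8,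
    6, 1, 3, 7, 9, 6, 4], [5, 2, 0, 0, 2, 1, 3, 4, 6, 1, 3, 7, 8, 6, 2, 0, 7, 5, 2, 0, 3, 1, 1, 3,
    4], [10, 6, 2, 0, 7, 5, 2, 0, 3, 1, 1, 3, 4]],
  [[0, 2, 1, 3, 4, 6, 5, 7, 8, 10, 6, 5, 2, 0, 3, 7, 11, 9, 6, 4, 7], [6, 5, 7, 8, 10, 6, 2, 0, 2,
    1, 3, 4, 7, 11, 9, 6, 4, 7, 5, 2, 0, 3, 1], [6, 5, 7, 8, 10, 6, 2, 0, 7, 11, 9, 6, 4, 7, 0, 2,
    1, 3, 4, 6, 5, 7, 8, 10, 6, 1, 3, 7, 11, 9, 6, 4, 7], [6, 5, 2, 0, 0, 2, 1, 3, 4, 6, 5, 7, 8,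
    10, 6, 1, 3, 7, 11, 9, 6, 4, 7], [6, 5, 2, 0, 0, 2, 1, 3, 4, 1, 3, 7, 8], [10, 6, 2, 0, 5, 2,
    0, 3, 1, 1, 3, 4, 7]],
  [[0, 2, 1, 3, 4, 6, 5, 7, 8, 10, 5, 2, 0, 3, 0, 2, 1, 3, 4, 11, 9, 6, 4, 7, 5, 2, 0, 3, 1], [5,
    7, 8, 10, 6, 2, 0, 2, 1, 3, 4, 11, 9, 6, 4, 7, 5, 2, 0, 3, 1], [5, 7, 8, 10, 6, 2, 0, 3, 7,
    11, 9, 6, 4, 2, 1, 3, 4], [5, 2, 0, 3, 0, 2, 1, 3, 4, 6, 5, 7, 8, 10, 6, 2, 1, 3, 7, 11, 9, 6,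
    4], [5, 2, 0, 3, 0, 2, 1, 3, 4, 6, 2, 1, 3, 7, 8], [10, 6, 2, 0, 3, 7, 5, 2, 0, 3, 1, 2, 1, 3,
    4]],
  [[0, 2, 1, 3, 4, 6, 5, 7, 8, 10, 9, 6, 2, 0, 3, 7, 11], [10, 6, 2, 0, 2, 1, 3, 7, 8, 11, 9, 6,
    4, 7, 5, 2, 0, 3, 1], [10, 6, 2, 0, 7, 11, 0, 2, 1, 3, 4, 6, 5, 7, 8, 10, 9, 6, 4, 1, 3, 7,
    11], [10, 6, 2, 0, 6, 1, 3, 7, 11], [10, 6, 2, 0, 11, 0, 2, 1, 3, 4, 6, 5, 7, 8, 10, 1, 3, 7,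
    11], [10, 6, 2, 0, 10, 1, 3, 7, 11]],
  [[0, 2, 1, 3, 4, 6, 5, 7, 8, 5, 2, 0, 3, 7, 9, 6, 4], [5, 7, 8, 6, 2, 7, 9, 6, 4], [5, 7, 8, 6,
    2, 7, 9, 6, 4, 3, 4], [5, 2, 0, 2, 1, 3, 4, 6, 5, 7, 8, 6, 3, 7, 9, 6, 4], [5, 2, 0, 2, 1, 3,
    4, 6, 3, 7, 8, 6, 2, 7, 5, 2, 0, 3, 1, 3, 4], [10, 6, 2, 7, 5, 2, 0, 3, 1, 3, 4]],
  [[0, 2, 1, 3, 4, 6, 5, 7, 8, 10, 6, 5, 2, 0, 3, 7, 11, 9, 6, 4, 7], [6, 5, 7, 8, 10, 6, 2, 7,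
    11, 9, 6, 4, 7], [6, 5, 7, 8, 10, 6, 2, 7, 11, 9, 6, 4, 7, 0, 2, 1, 3, 4, 6, 5, 7, 8, 10, 6,
    3, 7, 11, 9, 6, 4, 7], [6, 5, 2, 0, 2, 1, 3, 4, 6, 5, 7, 8, 10, 6, 3, 7, 11, 9, 6, 4, 7], [6,
    5, 2, 0, 2, 1, 3, 4, 3, 7, 8], [10, 6, 2, 5, 2, 0, 3, 1, 3, 4, 7]],
  [[0, 2, 1, 3, 4, 6, 5, 7, 8, 7, 9, 6, 2, 0, 3], [2], [2, 0, 2, 1, 3, 4, 6, 5, 7, 8, 7, 9, 6, 2,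
    0, 3, 1, 3, 7, 8, 6, 2, 0, 2, 1, 3, 4, 9, 6, 4, 7, 5, 2, 0, 3, 1, 3], [2, 0, 2, 1, 3, 4, 6, 5,
    7, 8, 6, 9, 6, 4, 7, 5, 2, 0, 3, 1, 3], [2, 0, 2, 1, 3, 4, 6, 5, 2, 0, 3, 1, 3, 7, 8, 6, 2, 0,
    2, 1, 3, 4, 7, 5, 2, 0, 3, 1, 3], [10, 6, 2, 0, 2, 1, 3, 4, 7, 5, 2, 0, 3, 1, 3]],
  [[0, 2, 1, 3, 4, 6, 5, 7, 8, 10, 5, 2, 0, 3, 7, 11, 9, 6, 4], [5, 7, 8, 10, 6, 2, 0, 2, 1, 3, 4,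
    11, 9, 6, 4, 7, 5, 2, 0, 3, 1], [5, 7, 8, 10, 6, 2, 0, 7, 11, 9, 6, 4, 1, 3, 4], [5, 2, 0, 0,
    2, 1, 3, 4, 6, 5, 7, 8, 10, 6, 1, 3, 7, 11, 9, 6, 4], [5, 2, 0, 0, 2, 1, 3, 4, 6, 1, 3, 7, 8],
    [10, 6, 2, 0, 7, 5, 2, 0, 3, 1, 1, 3, 4]],
  [[0, 2, 1, 3, 4, 6, 5, 7, 8, 10, 9, 6, 4, 7, 5, 2, 0, 3, 0, 2, 1, 3, 4, 6, 5, 7, 8, 11, 9, 6, 4,
    7, 5, 2, 0, 3, 1], [7, 10, 6, 2, 0, 2, 1, 3, 4, 6, 5, 7, 8, 11, 9, 6, 4, 7, 5, 2, 0, 3, 1],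
    [7, 10, 6, 2, 0, 3, 7, 11, 6, 2, 1, 3, 4], [6], [10, 6, 2, 0, 3, 7, 11, 6, 2, 1, 3, 4, 7, 5,
    2, 0, 3, 0, 2, 1, 3, 4, 6, 5, 7, 8, 10, 6, 2, 1, 3, 7, 11], [10, 6, 2, 0, 3, 7, 10, 6, 2, 1,
    3, 7, 11]],
  [[0, 2, 1, 3, 4, 6, 5, 7, 8, 10, 9, 6, 2, 0, 3, 7, 11], [10, 6, 2, 7, 11], [10, 6, 2, 7, 11, 0,
    2, 1, 3, 4, 6, 5, 7, 8, 10, 9, 6, 4, 3, 7, 11], [10, 6, 2, 6, 3, 7, 11], [10, 6, 2, 11, 0, 2,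
    1, 3, 4, 6, 5, 7, 8, 10, 3, 7, 11], [10, 6, 2, 10, 3, 7, 11]],
  [[0, 2, 1, 3, 4, 6, 5, 7, 8, 7, 9, 6, 2, 0, 3], [2, 2, 1, 3, 4, 6, 5, 7, 8, 7, 9, 6, 2, 0, 3],
    [2, 2, 1, 3, 4, 6, 5, 7, 8, 7, 9, 6, 2, 0, 3, 3, 7, 8, 6, 2, 2, 1, 3, 4, 9, 6, 4, 7, 5, 2, 0,
    3, 3], [2, 2, 1, 3, 4, 6, 5, 7, 8, 6, 9, 6, 4, 7, 5, 2, 0, 3, 3], [2, 2, 1, 3, 4, 6, 5, 2, 0,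
    3, 3, 7, 8, 6, 2, 2, 1, 3, 4, 7, 5, 2, 0, 3, 3], [10, 6, 2, 2, 1, 3, 4, 7, 5, 2, 0, 3, 3]],
  [[0, 2, 1, 3, 4, 6, 5, 7, 8, 10, 5, 2, 0, 3, 7, 11, 9, 6, 4], [5, 7, 8, 10, 6, 2, 7, 11, 9, 6,
    4], [5, 7, 8, 10, 6, 2, 7, 11, 9, 6, 4, 3, 4], [5, 2, 0, 2, 1, 3, 4, 6, 5, 7, 8, 10, 6, 3, 7,
    11, 9, 6, 4], [5, 2, 0, 2, 1, 3, 4, 6, 3, 7, 8], [10, 6, 2, 7, 5, 2, 0, 3, 1, 3, 4]],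
  [[0, 2, 1, 3, 4, 6, 5, 7, 8, 10, 7, 11, 9, 6, 2, 0, 3], [2], [2, 0, 2, 1, 3, 4, 6, 5, 7, 8, 10,
    7, 11, 9, 6, 2, 0, 3, 1, 3, 7, 8, 10, 6, 2, 0, 2, 1, 3, 4, 11, 9, 6, 4, 7, 5, 2, 0, 3, 1, 3],
    [2, 0, 2, 1, 3, 4, 6, 5, 7, 8, 10, 6, 11, 9, 6, 4, 7, 5, 2, 0, 3, 1, 3], [2, 0, 2, 1, 3, 4, 6,
    5, 2, 0, 3, 1, 3, 7, 8], [10, 6, 2, 0, 2, 1, 3, 4, 7, 5, 2, 0, 3, 1, 3]],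
  [[0, 2, 1, 3, 4, 6, 5, 7, 8, 10, 9, 6, 4, 7, 5, 2, 0, 3, 7, 11, 6], [7, 10, 6, 2, 0, 2, 1, 3, 4,
    6, 5, 7, 8, 11, 9, 6, 4, 7, 5, 2, 0, 3, 1], [7, 10, 6, 2, 0, 7, 11, 6, 1, 3, 4], [6], [10, 6,
    2, 0, 7, 11, 6, 1, 3, 4, 7, 5, 2, 0, 0, 2, 1, 3, 4, 6, 5, 7, 8, 10, 6, 1, 3, 7, 11], [10, 6,
    2, 0, 7, 10, 6, 1, 3, 7, 11]],
  [[0], [2, 1, 3, 4, 6, 5, 7, 8, 7, 9, 6, 2, 0], [2, 1, 3, 4, 6, 5, 7, 8, 7, 9, 6, 2, 0, 3, 7, 8,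
    6, 2, 1, 3, 4, 9, 6, 4, 7, 5, 2, 0, 3], [2, 1, 3, 4, 6, 5, 7, 8, 6, 9, 6, 4, 7, 5, 2, 0, 3],
    [2, 1, 3, 4, 6, 5, 2, 0, 3, 7, 8, 6, 2, 1, 3, 4, 7, 5, 2, 0, 3], [10, 6, 2, 1, 3, 4, 7, 5, 2,
    0, 3]],
  [[0, 2, 1, 3, 4, 6, 5, 7, 8, 10, 7, 11, 9, 6, 2, 0, 3], [2, 2, 1, 3, 4, 6, 5, 7, 8, 10, 7, 11,
    9, 6, 2, 0, 3], [2, 2, 1, 3, 4, 6, 5, 7, 8, 10, 7, 11, 9, 6, 2, 0, 3, 3, 7, 8, 10, 6, 2, 2, 1,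
    3, 4, 11, 9, 6, 4, 7, 5, 2, 0, 3, 3], [2, 2, 1, 3, 4, 6, 5, 7, 8, 10, 6, 11, 9, 6, 4, 7, 5, 2,
    0, 3, 3], [2, 2, 1, 3, 4, 6, 5, 2, 0, 3, 3, 7, 8], [10, 6, 2, 2, 1, 3, 4, 7, 5, 2, 0, 3, 3]],
  [[0, 2, 1, 3, 4, 6, 5, 7, 8, 10, 9, 6, 4, 7, 5, 2, 0, 3, 7, 11, 6], [7, 10, 6, 2, 7, 11, 6], [7,
    10, 6, 2, 7, 11, 6, 3, 4], [6], [10, 6, 2, 7, 11, 6, 3, 4, 7, 5, 2, 0, 2, 1, 3, 4, 6, 5, 7, 8,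
    10, 6, 3, 7, 11], [10, 6, 2, 7, 10, 6, 3, 7, 11]],
  [[0, 2, 1, 3, 4, 6, 5, 7, 8, 10, 9, 6, 4, 7, 7, 11, 6, 5, 2, 0, 3], [2], [2, 0, 2, 1, 3, 4, 6,
    5, 7, 8, 10, 9, 6, 4, 7, 7, 11, 6, 5, 2, 0, 3, 1, 3, 4, 7, 10, 6, 2, 0, 2, 1, 3, 4, 6, 5, 7,
    8, 11, 9, 6, 4, 7, 5, 2, 0, 3, 1, 3], [10, 6, 2, 0, 2, 1, 3, 4, 6, 5, 7, 8, 11, 9, 6, 4, 7, 5,
    2, 0, 3, 1, 3], [10, 6, 2, 0, 2, 1, 3, 4, 7, 11, 6, 5, 2, 0, 3, 1, 3, 4, 7, 2, 0, 2, 1, 3, 4,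
    6, 5, 7, 8, 10, 6, 5, 2, 0, 3, 1, 3, 7, 11], [10, 6, 2, 0, 2, 1, 3, 4, 7, 10, 6, 5, 2, 0, 3,
    1, 3, 7, 11]],
  [[0], [2, 1, 3, 4, 6, 5, 7, 8, 10, 7, 11, 9, 6, 2, 0], [2, 1, 3, 4, 6, 5, 7, 8, 10, 7, 11, 9, 6,
    2, 0, 3, 7, 8, 10, 6, 2, 1, 3, 4, 11, 9, 6, 4, 7, 5, 2, 0, 3], [2, 1, 3, 4, 6, 5, 7, 8, 10, 6,
    11, 9, 6, 4, 7, 5, 2, 0, 3], [2, 1, 3, 4, 6, 5, 2, 0, 3, 7, 8], [10, 6, 2, 1, 3, 4, 7, 5, 2,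
    0, 3]],
  [[0, 2, 1, 3, 4, 6, 5, 7, 8, 10, 9, 6, 4, 7, 7, 11, 6, 5, 2, 0, 3], [2, 2, 1, 3, 4, 6, 5, 7, 8,
    10, 9, 6, 4, 7, 7, 11, 6, 5, 2, 0, 3], [2, 2, 1, 3, 4, 6, 5, 7, 8, 10, 9, 6, 4, 7, 7, 11, 6,
    5, 2, 0, 3, 3, 4, 7, 10, 6, 2, 2, 1, 3, 4, 6, 5, 7, 8, 11, 9, 6, 4, 7, 5, 2, 0, 3, 3], [10, 6,
    2, 2, 1, 3, 4, 6, 5, 7, 8, 11, 9, 6, 4, 7, 5, 2, 0, 3, 3], [10, 6, 2, 2, 1, 3, 4, 7, 11, 6, 5,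
    2, 0, 3, 3, 4, 7, 2, 2, 1, 3, 4, 6, 5, 7, 8, 10, 6, 5, 2, 0, 3, 3, 7, 11], [10, 6, 2, 2, 1, 3,
    4, 7, 10, 6, 5, 2, 0, 3, 3, 7, 11]],
  [[0, 2, 1, 3, 4, 6, 5, 7, 8, 10, 9, 6, 4, 7, 11, 5, 2, 0, 3], [2], [2, 0, 2, 1, 3, 4, 6, 5, 7,
    8, 10, 9, 6, 4, 7, 11, 5, 2, 0, 3, 1, 3, 4], [10, 6, 2, 0, 2, 1, 3, 4, 6, 5, 7, 8, 11, 9, 6,
    4, 7, 5, 2, 0, 3, 1, 3], [10, 6, 2, 0, 2, 1, 3, 4, 11, 5, 2, 0, 3, 1, 3, 4, 2, 0, 2, 1, 3, 4,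
    6, 5, 7, 8, 10, 5, 2, 0, 3, 1, 3, 7, 11], [10, 6, 2, 0, 2, 1, 3, 4, 10, 5, 2, 0, 3, 1, 3, 7,
    11]],
  [[0], [2, 1, 3, 4, 6, 5, 7, 8, 10, 9, 6, 4, 7, 7, 11, 6, 5, 2, 0], [2, 1, 3, 4, 6, 5, 7, 8, 10,
    9, 6, 4, 7, 7, 11, 6, 5, 2, 0, 3, 4, 7, 10, 6, 2, 1, 3, 4, 6, 5, 7, 8, 11, 9, 6, 4, 7, 5, 2,
    0, 3], [10, 6, 2, 1, 3, 4, 6, 5, 7, 8, 11, 9, 6, 4, 7, 5, 2, 0, 3], [10, 6, 2, 1, 3, 4, 7, 11,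
    6, 5, 2, 0, 3, 4, 7, 2, 1, 3, 4, 6, 5, 7, 8, 10, 6, 5, 2, 0, 3, 7, 11], [10, 6, 2, 1, 3, 4, 7,
    10, 6, 5, 2, 0, 3, 7, 11]],
  [[0, 2, 1, 3, 4, 6, 5, 7, 8, 10, 9, 6, 4, 7, 11, 5, 2, 0, 3], [2, 2, 1, 3, 4, 6, 5, 7, 8, 10, 9,
    6, 4, 7, 11, 5, 2, 0, 3], [2, 2, 1, 3, 4, 6, 5, 7, 8, 10, 9, 6, 4, 7, 11, 5, 2, 0, 3, 3, 4],
    [10, 6, 2, 2, 1, 3, 4, 6, 5, 7, 8, 11, 9, 6, 4, 7, 5, 2, 0, 3, 3], [10, 6, 2, 2, 1, 3, 4, 11,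
    5, 2, 0, 3, 3, 4, 2, 2, 1, 3, 4, 6, 5, 7, 8, 10, 5, 2, 0, 3, 3, 7, 11], [10, 6, 2, 2, 1, 3, 4,
    10, 5, 2, 0, 3, 3, 7, 11]],
  [[0], [2, 1, 3, 4, 6, 5, 7, 8, 10, 9, 6, 4, 7, 11, 5, 2, 0], [2, 1, 3, 4, 6, 5, 7, 8, 10, 9, 6,
    4, 7, 11, 5, 2, 0, 3, 4], [10, 6, 2, 1, 3, 4, 6, 5, 7, 8, 11, 9, 6, 4, 7, 5, 2, 0, 3], [10, 6,
    2, 1, 3, 4, 11, 5, 2, 0, 3, 4, 2, 1, 3, 4, 6, 5, 7, 8, 10, 5, 2, 0, 3, 7, 11], [10, 6, 2, 1,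
    3, 4, 10, 5, 2, 0, 3, 7, 11]],
  [[0], [2], [4, 6, 5, 7, 8, 10, 9, 6, 4, 7, 11], [10, 6, 11], [10, 6, 11, 4, 6, 5, 7, 8, 10, 7,
    11], [10, 6, 10, 7, 11]],
  [[0, 2, 1, 3, 4, 6, 5, 7, 8, 10, 9, 11, 0, 10, 8, 11, 9, 6, 4, 7, 5, 2, 0, 3, 1], [0, 2, 1, 3,
    4, 6, 5, 7, 8, 10, 9, 11, 2, 10, 8, 11, 9, 6, 4, 7, 5, 2, 0, 3, 1], [0, 2, 1, 3, 4, 6, 5, 7,
    8, 10, 9, 11, 4, 10, 8, 11, 9, 6, 4, 7, 5, 2, 0, 3, 1], [0, 2, 1, 3, 4, 6, 5, 7, 8, 10, 9, 11,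
    6, 10, 8, 11, 9, 6, 4, 7, 5, 2, 0, 3, 1], [0, 2, 1, 3, 4, 6, 5, 7, 8, 10, 9, 11, 8, 10, 8, 11,
    9, 6, 4, 7, 5, 2, 0, 3, 1], [0, 2, 1, 3, 4, 6, 5, 7, 8, 10, 9, 10, 8, 11, 9, 6, 4, 7, 5, 2, 0,
    3, 1]]]

/-- image lists of the inverses -/
def tB : List (List (List ℕ)) := [
  [[0], [2, 0], [4], [6], [8], [10]],
  [[0, 3], [2], [4], [6], [8], [10]],
  [[0], [5, 2, 0], [5, 2, 0, 3, 4, 2, 1, 3, 4], [6, 2, 1, 3, 4], [8], [10]],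
  [[0], [2], [4, 7], [6], [8], [10]],
  [[0], [2], [4], [9, 6, 4], [9, 6, 4, 7, 8, 6, 5, 7, 8], [10, 6, 5, 7, 8]],
  [[0], [2], [4], [6], [8, 11], [10]],
  [[0], [2], [4], [6, 4], [8], [10]],
  [[0], [2], [4], [6], [8], [10, 8]],
  [[5, 2, 0, 3, 0, 2, 1, 3, 4], [5, 2, 0, 3, 1, 2, 0, 2, 1, 3, 4], [5, 2, 0, 3, 1, 4, 0, 2, 1, 3,
    4], [6, 5, 0, 2, 1, 3, 4], [8], [10]],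
  [[9, 6, 4, 7, 5, 2, 0, 3, 0, 2, 1, 3, 4, 6, 5, 7, 8], [9, 6, 4, 7, 5, 2, 0, 3, 1, 2, 0, 2, 1, 3,
    4, 6, 5, 7, 8], [9, 6, 4, 7, 5, 2, 0, 3, 1, 4, 0, 2, 1, 3, 4, 6, 5, 7, 8], [9, 6, 4, 7, 5, 2,
    0, 3, 1, 6, 0, 2, 1, 3, 4, 6, 5, 7, 8], [9, 6, 4, 7, 5, 2, 0, 3, 1, 8, 0, 2, 1, 3, 4, 6, 5, 7,
    8], [10, 9, 0, 2, 1, 3, 4, 6, 5, 7, 8]],
  [[7, 5, 2, 0, 3, 0, 2, 1, 3, 4, 6], [7, 5, 2, 0, 3, 1, 2, 0, 2, 1, 3, 4, 6], [7, 5, 2, 0, 3, 1,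
    4, 6, 4], [5, 0, 2, 1, 3, 4, 6], [8], [10]],
  [[11, 9, 6, 4, 7, 5, 2, 0, 3, 0, 2, 1, 3, 4, 6, 5, 7, 8, 10], [11, 9, 6, 4, 7, 5, 2, 0, 3, 1, 2,
    0, 2, 1, 3, 4, 6, 5, 7, 8, 10], [11, 9, 6, 4, 7, 5, 2, 0, 3, 1, 4, 0, 2, 1, 3, 4, 6, 5, 7, 8,
    10], [11, 9, 6, 4, 7, 5, 2, 0, 3, 1, 6, 0, 2, 1, 3, 4, 6, 5, 7, 8, 10], [11, 9, 6, 4, 7, 5, 2,
    0, 3, 1, 8, 10, 8], [9, 0, 2, 1, 3, 4, 6, 5, 7, 8, 10]],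
  [[2, 1, 3, 4, 7, 5, 2, 0, 3, 0, 2, 1, 3, 4, 6, 5, 2, 0, 3], [2, 1, 3, 7, 2, 0, 2, 1, 3, 4, 6, 5,
    2, 0, 3], [2, 1, 3, 7, 2, 0, 3, 6, 4, 7, 5, 2, 0, 3, 1, 2, 1, 3, 4, 6, 2, 0, 3], [2, 1, 3, 6,
    2, 0, 3], [8], [10]],
  [[7, 9, 6, 4, 7, 5, 2, 0, 3, 0, 2, 1, 3, 4, 6, 5, 7, 8, 6], [7, 9, 6, 4, 7, 5, 2, 0, 3, 1, 2, 0,
    2, 1, 3, 4, 6, 5, 7, 8, 6], [7, 9, 6, 4, 7, 5, 2, 0, 3, 1, 4, 6, 5, 7, 8, 6, 4], [6], [9, 6,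
    4, 7, 5, 2, 0, 3, 1, 4, 6, 5, 7, 8, 6, 4, 7, 5, 0, 2, 1, 3, 4, 6, 5, 7, 8], [10, 9, 6, 4, 7,
    5, 0, 2, 1, 3, 4, 6, 5, 7, 8]],
  [[6, 5, 7, 8, 11, 9, 6, 4, 7, 5, 2, 0, 3, 0, 2, 1, 3, 4, 6, 5, 7, 8, 10, 9, 6, 4, 7], [6, 5, 7,
    8, 11, 9, 6, 4, 7, 5, 2, 0, 3, 1, 2, 0, 2, 1, 3, 4, 6, 5, 7, 8, 10, 9, 6, 4, 7], [6, 5, 7, 8,
    11, 9, 6, 4, 7, 5, 2, 0, 3, 1, 4, 0, 2, 1, 3, 4, 6, 5, 7, 8, 10, 9, 6, 4, 7], [6, 5, 7, 11, 6,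
    0, 2, 1, 3, 4, 6, 5, 7, 8, 10, 9, 6, 4, 7], [6, 5, 7, 11, 6, 4, 7, 10, 8, 11, 9, 6, 4, 7, 5,
    2, 0, 3, 1, 6, 5, 7, 8, 10, 6, 4, 7], [6, 5, 7, 10, 6, 4, 7]],
  [[1, 3, 4, 7, 5, 2, 0, 3, 6, 2, 0], [1, 3, 7, 2, 0, 2, 1, 3, 4, 6, 5, 2, 0], [1, 3, 7, 2, 0, 6,
    4, 7, 5, 2, 0, 3, 1, 1, 3, 4, 6, 2, 0], [1, 3, 6, 2, 0], [8], [10]],
  [[2, 1, 3, 4, 7, 9, 6, 4, 7, 5, 2, 0, 3, 0, 2, 1, 3, 4, 6, 5, 7, 8, 6, 5, 2, 0, 3], [2, 1, 3, 7,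
    9, 6, 4, 7, 2, 0, 2, 1, 3, 4, 6, 5, 7, 8, 6, 5, 2, 0, 3], [2, 1, 3, 7, 9, 6, 4, 7, 2, 0, 3, 6,
    5, 7, 8, 6, 4, 7, 9, 6, 4, 7, 5, 2, 0, 3, 1, 2, 1, 3, 4, 6, 5, 7, 8, 6, 2, 0, 3], [9, 6, 4, 7,
    5, 2, 0, 3, 1, 2, 1, 3, 4, 6, 5, 7, 8, 6, 2, 0, 3], [9, 6, 4, 7, 5, 2, 0, 3, 1, 2, 1, 3, 4, 2,
    0, 3, 6, 5, 7, 8, 6, 4, 7, 2, 1, 3, 5, 2, 0, 3, 0, 2, 1, 3, 4, 6, 5, 7, 8], [10, 9, 6, 4, 7,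
    2, 1, 3, 5, 2, 0, 3, 0, 2, 1, 3, 4, 6, 5, 7, 8]],
  [[7, 11, 9, 6, 4, 7, 5, 2, 0, 3, 0, 2, 1, 3, 4, 6, 5, 7, 8, 10, 6], [7, 11, 9, 6, 4, 7, 5, 2, 0,
    3, 1, 2, 0, 2, 1, 3, 4, 6, 5, 7, 8, 10, 6], [7, 11, 9, 6, 4, 7, 5, 2, 0, 3, 1, 4, 6, 5, 7, 8,
    10, 6, 4], [6], [11, 9, 6, 4, 7, 5, 2, 0, 3, 1, 4, 6, 5, 7, 8, 10, 8], [9, 6, 4, 7, 5, 0, 2,
    1, 3, 4, 6, 5, 7, 8, 10]],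
  [[5, 7, 8, 11, 9, 6, 4, 7, 5, 2, 0, 3, 0, 2, 1, 3, 4, 6, 5, 7, 8, 10, 9, 6, 4], [5, 7, 8, 11, 9,
    6, 4, 7, 5, 2, 0, 3, 1, 2, 0, 2, 1, 3, 4, 6, 5, 7, 8, 10, 9, 6, 4], [5, 7, 8, 11, 9, 6, 4, 7,
    5, 2, 0, 3, 1, 4, 10, 6, 4], [5, 7, 11, 6, 0, 2, 1, 3, 4, 6, 5, 7, 8, 10, 9, 6, 4], [5, 7, 11,
    6, 4, 10, 8, 11, 9, 6, 4, 7, 5, 2, 0, 3, 1, 5, 7, 8, 10, 6, 4], [5, 7, 10, 6, 4]],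
  [[3, 4, 7, 5, 2, 0, 3, 6, 2], [3, 7, 2, 6, 2], [3, 7, 2, 6, 4, 7, 5, 2, 0, 3, 1, 3, 4, 6, 2],
    [3, 6, 2], [8], [10]],
  [[1, 3, 4, 7, 9, 6, 4, 7, 5, 2, 0, 3, 6, 5, 7, 8, 6, 2, 0], [1, 3, 7, 9, 6, 4, 7, 2, 0, 2, 1, 3,
    4, 6, 5, 7, 8, 6, 5, 2, 0], [1, 3, 7, 9, 6, 4, 7, 2, 0, 6, 5, 7, 8, 6, 4, 7, 9, 6, 4, 7, 5, 2,
    0, 3, 1, 1, 3, 4, 6, 5, 7, 8, 6, 2, 0], [9, 6, 4, 7, 5, 2, 0, 3, 1, 1, 3, 4, 6, 5, 7, 8, 6, 2,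
    0], [9, 6, 4, 7, 5, 2, 0, 3, 1, 1, 3, 4, 2, 0, 6, 5, 7, 8, 6, 4, 7, 1, 3, 5, 2, 0, 0, 2, 1, 3,
    4, 6, 5, 7, 8], [10, 9, 6, 4, 7, 1, 3, 5, 2, 0, 0, 2, 1, 3, 4, 6, 5, 7, 8]],
  [[2, 1, 3, 4, 9, 6, 4, 7, 5, 2, 0, 3, 0, 2, 1, 3, 4, 6, 5, 7, 8, 5, 2, 0, 3], [2, 1, 3, 7, 9, 6,
    4, 2, 0, 2, 1, 3, 4, 6, 5, 7, 8, 5, 2, 0, 3], [2, 1, 3, 7, 9, 6, 4, 2, 0, 3, 5, 7, 8, 6, 4],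
    [9, 6, 4, 7, 5, 2, 0, 3, 1, 2, 1, 3, 4, 6, 5, 7, 8, 6, 2, 0, 3], [9, 6, 4, 7, 5, 2, 0, 3, 1,
    2, 1, 3, 4, 6, 2, 0, 3, 5, 7, 8, 6, 4, 2, 1, 3, 7, 5, 2, 0, 3, 0, 2, 1, 3, 4, 6, 5, 7, 8],
    [10, 9, 6, 4, 2, 1, 3, 7, 5, 2, 0, 3, 0, 2, 1, 3, 4, 6, 5, 7, 8]],
  [[2, 1, 3, 4, 7, 11, 9, 6, 4, 7, 5, 2, 0, 3, 0, 2, 1, 3, 4, 6, 5, 7, 8, 10, 6, 5, 2, 0, 3], [2,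
    1, 3, 7, 11, 9, 6, 4, 7, 2, 0, 2, 1, 3, 4, 6, 5, 7, 8, 10, 6, 5, 2, 0, 3], [2, 1, 3, 7, 11, 9,
    6, 4, 7, 2, 0, 3, 6, 5, 7, 8, 10, 6, 4, 7, 11, 9, 6, 4, 7, 5, 2, 0, 3, 1, 2, 1, 3, 4, 6, 5, 7,
    8, 10, 6, 2, 0, 3], [11, 9, 6, 4, 7, 5, 2, 0, 3, 1, 2, 1, 3, 4, 6, 5, 7, 8, 10, 6, 2, 0, 3],
    [11, 9, 6, 4, 7, 5, 2, 0, 3, 1, 2, 1, 3, 4, 2, 0, 3, 6, 5, 7, 8, 10, 8], [9, 6, 4, 7, 2, 1, 3,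
    5, 2, 0, 3, 0, 2, 1, 3, 4, 6, 5, 7, 8, 10]],
  [[2, 1, 3, 7, 8, 11, 9, 6, 4, 7, 5, 2, 0, 3, 0, 2, 1, 3, 4, 6, 5, 7, 8, 10, 9, 6, 2, 0, 3], [2,
    1, 3, 7, 11, 2, 0, 2, 1, 3, 4, 6, 5, 7, 8, 10, 9, 6, 2, 0, 3], [2, 1, 3, 7, 11, 2, 0, 3, 10,
    8, 11, 9, 6, 4, 7, 5, 2, 0, 3, 1, 2, 1, 3, 4, 10, 6, 2, 0, 3], [2, 1, 3, 7, 11, 6, 10, 6, 2,
    0, 3], [2, 1, 3, 7, 11, 6, 2, 0, 3, 10, 8, 11, 9, 6, 4, 7, 5, 2, 0, 3, 1, 2, 1, 3, 7, 8, 10,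
    6, 2, 0, 3], [2, 1, 3, 7, 10, 6, 2, 0, 3]],
  [[3, 4, 7, 9, 6, 4, 7, 5, 2, 0, 3, 6, 5, 7, 8, 6, 2], [3, 7, 9, 6, 4, 7, 2, 6, 5, 7, 8, 6, 2],
    [3, 7, 9, 6, 4, 7, 2, 6, 5, 7, 8, 6, 4, 7, 9, 6, 4, 7, 5, 2, 0, 3, 1, 3, 4, 6, 5, 7, 8, 6, 2],
    [9, 6, 4, 7, 5, 2, 0, 3, 1, 3, 4, 6, 5, 7, 8, 6, 2], [9, 6, 4, 7, 5, 2, 0, 3, 1, 3, 4, 2, 6,
    5, 7, 8, 6, 4, 7, 3, 5, 2, 0, 2, 1, 3, 4, 6, 5, 7, 8], [10, 9, 6, 4, 7, 3, 5, 2, 0, 2, 1, 3,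
    4, 6, 5, 7, 8]],
  [[1, 3, 4, 9, 6, 4, 7, 5, 2, 0, 3, 5, 7, 8, 6, 2, 0], [1, 3, 7, 9, 6, 4, 2, 0, 2, 1, 3, 4, 6, 5,
    7, 8, 5, 2, 0], [1, 3, 7, 9, 6, 4, 2, 0, 5, 7, 8, 6, 4], [9, 6, 4, 7, 5, 2, 0, 3, 1, 1, 3, 4,
    6, 5, 7, 8, 6, 2, 0], [9, 6, 4, 7, 5, 2, 0, 3, 1, 1, 3, 4, 6, 2, 0, 5, 7, 8, 6, 4, 1, 3, 7, 5,
    2, 0, 0, 2, 1, 3, 4, 6, 5, 7, 8], [10, 9, 6, 4, 1, 3, 7, 5, 2, 0, 0, 2, 1, 3, 4, 6, 5, 7, 8]],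
  [[1, 3, 4, 7, 11, 9, 6, 4, 7, 5, 2, 0, 3, 6, 5, 7, 8, 10, 6, 2, 0], [1, 3, 7, 11, 9, 6, 4, 7, 2,
    0, 2, 1, 3, 4, 6, 5, 7, 8, 10, 6, 5, 2, 0], [1, 3, 7, 11, 9, 6, 4, 7, 2, 0, 6, 5, 7, 8, 10, 6,
    4, 7, 11, 9, 6, 4, 7, 5, 2, 0, 3, 1, 1, 3, 4, 6, 5, 7, 8, 10, 6, 2, 0], [11, 9, 6, 4, 7, 5, 2,
    0, 3, 1, 1, 3, 4, 6, 5, 7, 8, 10, 6, 2, 0], [11, 9, 6, 4, 7, 5, 2, 0, 3, 1, 1, 3, 4, 2, 0, 6,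
    5, 7, 8, 10, 8], [9, 6, 4, 7, 1, 3, 5, 2, 0, 0, 2, 1, 3, 4, 6, 5, 7, 8, 10]],
  [[2, 1, 3, 4, 11, 9, 6, 4, 7, 5, 2, 0, 3, 0, 2, 1, 3, 4, 6, 5, 7, 8, 10, 5, 2, 0, 3], [2, 1, 3,
    7, 11, 9, 6, 4, 2, 0, 2, 1, 3, 4, 6, 5, 7, 8, 10, 5, 2, 0, 3], [2, 1, 3, 7, 11, 9, 6, 4, 2, 0,
    3, 5, 7, 8, 10, 6, 4], [11, 9, 6, 4, 7, 5, 2, 0, 3, 1, 2, 1, 3, 4, 6, 5, 7, 8, 10, 6, 2, 0,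
    3], [11, 9, 6, 4, 7, 5, 2, 0, 3, 1, 2, 1, 3, 4, 6, 2, 0, 3, 5, 7, 8, 10, 8], [9, 6, 4, 2, 1,
    3, 7, 5, 2, 0, 3, 0, 2, 1, 3, 4, 6, 5, 7, 8, 10]],
  [[1, 3, 7, 8, 11, 9, 6, 4, 7, 5, 2, 0, 3, 10, 6, 2, 0], [1, 3, 7, 11, 2, 0, 2, 1, 3, 4, 6, 5, 7,
    8, 10, 9, 6, 2, 0], [1, 3, 7, 11, 2, 0, 10, 8, 11, 9, 6, 4, 7, 5, 2, 0, 3, 1, 1, 3, 4, 10, 6,
    2, 0], [1, 3, 7, 11, 6, 10, 6, 2, 0], [1, 3, 7, 11, 6, 2, 0, 10, 8, 11, 9, 6, 4, 7, 5, 2, 0,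
    3, 1, 1, 3, 7, 8, 10, 6, 2, 0], [1, 3, 7, 10, 6, 2, 0]],
  [[3, 4, 9, 6, 4, 7, 5, 2, 0, 3, 5, 7, 8, 6, 2], [3, 7, 9, 6, 4, 2, 5, 7, 8, 6, 2], [3, 7, 9, 6,
    4, 2, 5, 7, 8, 6, 4], [9, 6, 4, 7, 5, 2, 0, 3, 1, 3, 4, 6, 5, 7, 8, 6, 2], [9, 6, 4, 7, 5, 2,
    0, 3, 1, 3, 4, 6, 2, 5, 7, 8, 6, 4, 3, 7, 5, 2, 0, 2, 1, 3, 4, 6, 5, 7, 8], [10, 9, 6, 4, 3,
    7, 5, 2, 0, 2, 1, 3, 4, 6, 5, 7, 8]],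
  [[3, 4, 7, 11, 9, 6, 4, 7, 5, 2, 0, 3, 6, 5, 7, 8, 10, 6, 2], [3, 7, 11, 9, 6, 4, 7, 2, 6, 5, 7,
    8, 10, 6, 2], [3, 7, 11, 9, 6, 4, 7, 2, 6, 5, 7, 8, 10, 6, 4, 7, 11, 9, 6, 4, 7, 5, 2, 0, 3,
    1, 3, 4, 6, 5, 7, 8, 10, 6, 2], [11, 9, 6, 4, 7, 5, 2, 0, 3, 1, 3, 4, 6, 5, 7, 8, 10, 6, 2],
    [11, 9, 6, 4, 7, 5, 2, 0, 3, 1, 3, 4, 2, 6, 5, 7, 8, 10, 8], [9, 6, 4, 7, 3, 5, 2, 0, 2, 1, 3,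
    4, 6, 5, 7, 8, 10]],
  [[3, 9, 6, 4, 7, 5, 7, 8, 6, 2, 0], [2], [9, 6, 4, 7, 5, 7, 8, 6, 2, 0, 3, 1, 3, 7, 9, 6, 4, 2,
    0, 2, 1, 3, 4, 6, 5, 7, 8], [9, 6, 4, 7, 5, 2, 0, 3, 1, 3, 6, 2, 0, 2, 1, 3, 4, 6, 5, 7, 8],
    [9, 6, 4, 7, 5, 2, 0, 3, 1, 3, 6, 2, 0, 2, 1, 3, 7, 8, 6, 2, 0, 3, 1, 3, 7, 2, 0, 2, 1, 3, 4,
    6, 5, 7, 8], [10, 9, 6, 2, 0, 3, 1, 3, 7, 2, 0, 2, 1, 3, 4, 6, 5, 7, 8]],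
  [[1, 3, 4, 11, 9, 6, 4, 7, 5, 2, 0, 3, 5, 7, 8, 10, 6, 2, 0], [1, 3, 7, 11, 9, 6, 4, 2, 0, 2, 1,
    3, 4, 6, 5, 7, 8, 10, 5, 2, 0], [1, 3, 7, 11, 9, 6, 4, 2, 0, 5, 7, 8, 10, 6, 4], [11, 9, 6, 4,
    7, 5, 2, 0, 3, 1, 1, 3, 4, 6, 5, 7, 8, 10, 6, 2, 0], [11, 9, 6, 4, 7, 5, 2, 0, 3, 1, 1, 3, 4,
    6, 2, 0, 5, 7, 8, 10, 8], [9, 6, 4, 1, 3, 7, 5, 2, 0, 0, 2, 1, 3, 4, 6, 5, 7, 8, 10]],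
  [[2, 1, 3, 4, 6, 5, 7, 8, 11, 9, 6, 4, 7, 5, 2, 0, 3, 0, 2, 1, 3, 4, 6, 5, 7, 8, 10, 9, 6, 4, 7,
    5, 2, 0, 3], [2, 1, 3, 7, 11, 6, 2, 0, 2, 1, 3, 4, 6, 5, 7, 8, 10, 9, 6, 4, 7, 5, 2, 0, 3],
    [2, 1, 3, 7, 11, 6, 2, 0, 3, 7, 10, 6, 4], [6], [6, 2, 1, 3, 7, 11, 6, 2, 0, 3, 7, 10, 8, 11,
    9, 6, 4, 7, 5, 2, 0, 3, 1, 2, 1, 3, 4, 6, 5, 7, 8, 10, 6, 2, 0, 3, 7], [6, 2, 1, 3, 7, 10, 6,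
    2, 0, 3, 7]],
  [[3, 7, 8, 11, 9, 6, 4, 7, 5, 2, 0, 3, 10, 6, 2], [3, 7, 11, 2, 10, 6, 2], [3, 7, 11, 2, 10, 8,
    11, 9, 6, 4, 7, 5, 2, 0, 3, 1, 3, 4, 10, 6, 2], [3, 7, 11, 6, 10, 6, 2], [3, 7, 11, 6, 2, 10,
    8, 11, 9, 6, 4, 7, 5, 2, 0, 3, 1, 3, 7, 8, 10, 6, 2], [3, 7, 10, 6, 2]],
  [[0, 3, 9, 6, 4, 7, 5, 7, 8, 6, 2], [9, 6, 4, 7, 5, 7, 8, 6, 2], [9, 6, 4, 7, 5, 7, 8, 6, 2, 0,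
    3, 3, 7, 9, 6, 4, 2, 2, 1, 3, 4, 6, 5, 7, 8], [9, 6, 4, 7, 5, 2, 0, 3, 3, 6, 2, 2, 1, 3, 4, 6,
    5, 7, 8], [9, 6, 4, 7, 5, 2, 0, 3, 3, 6, 2, 2, 1, 3, 7, 8, 6, 2, 0, 3, 3, 7, 2, 2, 1, 3, 4, 6,
    5, 7, 8], [10, 9, 6, 2, 0, 3, 3, 7, 2, 2, 1, 3, 4, 6, 5, 7, 8]],
  [[3, 4, 11, 9, 6, 4, 7, 5, 2, 0, 3, 5, 7, 8, 10, 6, 2], [3, 7, 11, 9, 6, 4, 2, 5, 7, 8, 10, 6,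
    2], [3, 7, 11, 9, 6, 4, 2, 5, 7, 8, 10, 6, 4], [11, 9, 6, 4, 7, 5, 2, 0, 3, 1, 3, 4, 6, 5, 7,
    8, 10, 6, 2], [11, 9, 6, 4, 7, 5, 2, 0, 3, 1, 3, 4, 6, 2, 5, 7, 8, 10, 8], [9, 6, 4, 3, 7, 5,
    2, 0, 2, 1, 3, 4, 6, 5, 7, 8, 10]],
  [[3, 11, 9, 6, 4, 7, 5, 7, 8, 10, 6, 2, 0], [2], [11, 9, 6, 4, 7, 5, 7, 8, 10, 6, 2, 0, 3, 1, 3,
    7, 11, 9, 6, 4, 2, 0, 2, 1, 3, 4, 6, 5, 7, 8, 10], [11, 9, 6, 4, 7, 5, 2, 0, 3, 1, 3, 6, 2, 0,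
    2, 1, 3, 4, 6, 5, 7, 8, 10], [11, 9, 6, 4, 7, 5, 2, 0, 3, 1, 3, 6, 2, 0, 2, 1, 3, 7, 8, 10,
    8], [9, 6, 2, 0, 3, 1, 3, 7, 2, 0, 2, 1, 3, 4, 6, 5, 7, 8, 10]],
  [[1, 3, 4, 6, 5, 7, 8, 11, 9, 6, 4, 7, 5, 2, 0, 3, 7, 10, 6, 2, 0], [1, 3, 7, 11, 6, 2, 0, 2, 1,
    3, 4, 6, 5, 7, 8, 10, 9, 6, 4, 7, 5, 2, 0], [1, 3, 7, 11, 6, 2, 0, 7, 10, 6, 4], [6], [6, 1,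
    3, 7, 11, 6, 2, 0, 7, 10, 8, 11, 9, 6, 4, 7, 5, 2, 0, 3, 1, 1, 3, 4, 6, 5, 7, 8, 10, 6, 2, 0,
    7], [6, 1, 3, 7, 10, 6, 2, 0, 7]],
  [[0], [9, 6, 4, 7, 5, 7, 8, 6, 2], [9, 6, 4, 7, 5, 7, 8, 6, 2, 0, 3, 7, 9, 6, 4, 2, 1, 3, 4, 6,
    5, 7, 8], [9, 6, 4, 7, 5, 2, 0, 3, 6, 2, 1, 3, 4, 6, 5, 7, 8], [9, 6, 4, 7, 5, 2, 0, 3, 6, 2,
    1, 3, 7, 8, 6, 2, 0, 3, 7, 2, 1, 3, 4, 6, 5, 7, 8], [10, 9, 6, 2, 0, 3, 7, 2, 1, 3, 4, 6, 5,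
    7, 8]],
  [[0, 3, 11, 9, 6, 4, 7, 5, 7, 8, 10, 6, 2], [11, 9, 6, 4, 7, 5, 7, 8, 10, 6, 2], [11, 9, 6, 4,
    7, 5, 7, 8, 10, 6, 2, 0, 3, 3, 7, 11, 9, 6, 4, 2, 2, 1, 3, 4, 6, 5, 7, 8, 10], [11, 9, 6, 4,
    7, 5, 2, 0, 3, 3, 6, 2, 2, 1, 3, 4, 6, 5, 7, 8, 10], [11, 9, 6, 4, 7, 5, 2, 0, 3, 3, 6, 2, 2,
    1, 3, 7, 8, 10, 8], [9, 6, 2, 0, 3, 3, 7, 2, 2, 1, 3, 4, 6, 5, 7, 8, 10]],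
  [[3, 4, 6, 5, 7, 8, 11, 9, 6, 4, 7, 5, 2, 0, 3, 7, 10, 6, 2], [3, 7, 11, 6, 2, 7, 10, 6, 2], [3,
    7, 11, 6, 2, 7, 10, 6, 4], [6], [6, 3, 7, 11, 6, 2, 7, 10, 8, 11, 9, 6, 4, 7, 5, 2, 0, 3, 1,
    3, 4, 6, 5, 7, 8, 10, 6, 2, 7], [6, 3, 7, 10, 6, 2, 7]],
  [[3, 6, 5, 7, 8, 11, 9, 6, 4, 7, 7, 10, 6, 2, 0], [2], [6, 5, 7, 8, 11, 9, 6, 4, 7, 7, 10, 6, 2,
    0, 3, 1, 3, 7, 11, 6, 2, 0, 2, 1, 3, 4, 6, 5, 7, 8, 10, 9, 6, 4, 7], [6, 5, 2, 0, 3, 1, 3, 7,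
    11, 6, 2, 0, 2, 1, 3, 4, 6, 5, 7, 8, 10, 9, 6, 4, 7], [6, 5, 2, 0, 3, 1, 3, 7, 11, 6, 2, 0, 2,
    1, 3, 4, 7, 10, 8, 11, 9, 6, 4, 7, 5, 2, 0, 3, 1, 3, 6, 5, 7, 8, 10, 6, 2, 0, 2, 1, 3, 4, 7],
    [6, 5, 2, 0, 3, 1, 3, 7, 10, 6, 2, 0, 2, 1, 3, 4, 7]],
  [[0], [11, 9, 6, 4, 7, 5, 7, 8, 10, 6, 2], [11, 9, 6, 4, 7, 5, 7, 8, 10, 6, 2, 0, 3, 7, 11, 9,
    6, 4, 2, 1, 3, 4, 6, 5, 7, 8, 10], [11, 9, 6, 4, 7, 5, 2, 0, 3, 6, 2, 1, 3, 4, 6, 5, 7, 8,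
    10], [11, 9, 6, 4, 7, 5, 2, 0, 3, 6, 2, 1, 3, 7, 8, 10, 8], [9, 6, 2, 0, 3, 7, 2, 1, 3, 4, 6,
    5, 7, 8, 10]],
  [[0, 3, 6, 5, 7, 8, 11, 9, 6, 4, 7, 7, 10, 6, 2], [6, 5, 7, 8, 11, 9, 6, 4, 7, 7, 10, 6, 2], [6,
    5, 7, 8, 11, 9, 6, 4, 7, 7, 10, 6, 2, 0, 3, 3, 7, 11, 6, 2, 2, 1, 3, 4, 6, 5, 7, 8, 10, 9, 6,
    4, 7], [6, 5, 2, 0, 3, 3, 7, 11, 6, 2, 2, 1, 3, 4, 6, 5, 7, 8, 10, 9, 6, 4, 7], [6, 5, 2, 0,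
    3, 3, 7, 11, 6, 2, 2, 1, 3, 4, 7, 10, 8, 11, 9, 6, 4, 7, 5, 2, 0, 3, 3, 6, 5, 7, 8, 10, 6, 2,
    2, 1, 3, 4, 7], [6, 5, 2, 0, 3, 3, 7, 10, 6, 2, 2, 1, 3, 4, 7]],
  [[3, 5, 7, 8, 11, 9, 6, 4, 7, 10, 6, 2, 0], [2], [5, 7, 8, 11, 9, 6, 4, 7, 10, 6, 4], [5, 2, 0,
    3, 1, 3, 7, 11, 6, 2, 0, 2, 1, 3, 4, 6, 5, 7, 8, 10, 9, 6, 4], [5, 2, 0, 3, 1, 3, 7, 11, 6, 2,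
    0, 2, 1, 3, 4, 10, 8, 11, 9, 6, 4, 7, 5, 2, 0, 3, 1, 3, 5, 7, 8, 10, 6, 2, 0, 2, 1, 3, 4], [5,
    2, 0, 3, 1, 3, 7, 10, 6, 2, 0, 2, 1, 3, 4]],
  [[0], [6, 5, 7, 8, 11, 9, 6, 4, 7, 7, 10, 6, 2], [6, 5, 7, 8, 11, 9, 6, 4, 7, 7, 10, 6, 2, 0, 3,
    7, 11, 6, 2, 1, 3, 4, 6, 5, 7, 8, 10, 9, 6, 4, 7], [6, 5, 2, 0, 3, 7, 11, 6, 2, 1, 3, 4, 6, 5,
    7, 8, 10, 9, 6, 4, 7], [6, 5, 2, 0, 3, 7, 11, 6, 2, 1, 3, 4, 7, 10, 8, 11, 9, 6, 4, 7, 5, 2,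
    0, 3, 6, 5, 7, 8, 10, 6, 2, 1, 3, 4, 7], [6, 5, 2, 0, 3, 7, 10, 6, 2, 1, 3, 4, 7]],
  [[0, 3, 5, 7, 8, 11, 9, 6, 4, 7, 10, 6, 2], [5, 7, 8, 11, 9, 6, 4, 7, 10, 6, 2], [5, 7, 8, 11,
    9, 6, 4, 7, 10, 6, 4], [5, 2, 0, 3, 3, 7, 11, 6, 2, 2, 1, 3, 4, 6, 5, 7, 8, 10, 9, 6, 4], [5,
    2, 0, 3, 3, 7, 11, 6, 2, 2, 1, 3, 4, 10, 8, 11, 9, 6, 4, 7, 5, 2, 0, 3, 3, 5, 7, 8, 10, 6, 2,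
    2, 1, 3, 4], [5, 2, 0, 3, 3, 7, 10, 6, 2, 2, 1, 3, 4]],
  [[0], [5, 7, 8, 11, 9, 6, 4, 7, 10, 6, 2], [5, 7, 8, 11, 9, 6, 4, 7, 10, 6, 4], [5, 2, 0, 3, 7,
    11, 6, 2, 1, 3, 4, 6, 5, 7, 8, 10, 9, 6, 4], [5, 2, 0, 3, 7, 11, 6, 2, 1, 3, 4, 10, 8, 11, 9,
    6, 4, 7, 5, 2, 0, 3, 5, 7, 8, 10, 6, 2, 1, 3, 4], [5, 2, 0, 3, 7, 10, 6, 2, 1, 3, 4]],
  [[0], [2], [7, 8, 11, 9, 6, 4, 7, 10, 6], [7, 11, 6, 10, 6], [7, 11, 6, 10, 8, 11, 9, 6, 4, 7,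
    5, 7, 8, 10, 6], [7, 10, 6]],
  [[10, 8, 11, 9, 6, 4, 7, 5, 2, 0, 3, 0, 2, 1, 3, 4, 6, 5, 7, 8, 10, 9, 11], [10, 8, 11, 9, 6, 4,
    7, 5, 2, 0, 3, 1, 2, 0, 2, 1, 3, 4, 6, 5, 7, 8, 10, 9, 11], [10, 8, 11, 9, 6, 4, 7, 5, 2, 0,
    3, 1, 4, 0, 2, 1, 3, 4, 6, 5, 7, 8, 10, 9, 11], [10, 8, 11, 9, 6, 4, 7, 5, 2, 0, 3, 1, 6, 0,
    2, 1, 3, 4, 6, 5, 7, 8, 10, 9, 11], [10, 8, 11, 9, 6, 4, 7, 5, 2, 0, 3, 1, 8, 0, 2, 1, 3, 4,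
    6, 5, 7, 8, 10, 9, 11], [10, 8, 11, 9, 6, 4, 7, 5, 2, 0, 3, 1, 10, 0, 2, 1, 3, 4, 6, 5, 7, 8,
    10, 9, 11]]]

/-- the first ten automorphisms as words in the generators -/
def tG : List (List (Gen × Bool)) := [
  [(A 0, false)],
  [(B 0, true)],
  [(C 0, false), (A 0, false), (A 1, false)],
  [(B 1, true)],
  [(C 1, false), (A 1, false), (A 2, false)],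
  [(B 2, true)],
  [(A 1, false)],
  [(A 2, false)],
  [(B 0, true), (A 0, false), (B 0, true), (A 0, false), (B 0, true), (A 0, false), (B 0, true),
    (A 0, false), (B 0, true), (A 0, false), (B 0, true), (A 0, false), (C 0, false), (B 0, true),
    (A 0, false), (B 0, true), (A 0, false), (B 0, true), (A 0, false), (C 0, false), (A 0, true),
    (B 0, false), (A 0, true), (B 0, false), (A 0, true), (B 0, false)],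
  [(A 0, false), (B 0, true), (C 0, false), (A 0, false), (A 1, false), (B 1, true), (C 1, false),
    (A 1, false), (A 2, false), (A 0, false), (B 0, true), (C 0, false), (A 0, false), (A 1,
    false), (B 1, true), (C 1, false), (A 1, false), (A 2, false), (A 0, false), (B 0, true), (C
    0, false), (A 0, false), (A 1, false), (B 1, true), (C 1, false), (A 1, false), (A 2, false),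
    (A 0, false), (B 0, true), (C 0, false), (A 0, false), (A 1, false), (B 1, true), (C 1,
    false), (A 1, false), (A 2, false), (A 0, false), (B 0, true), (C 0, false), (A 0, false), (A
    1, false), (B 1, true), (C 1, false), (A 1, false), (A 2, false), (A 0, false), (B 0, true),
    (C 0, false), (A 0, false), (A 1, false), (B 1, true), (C 1, false), (A 1, false), (A 2,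
    false), (A 2, true), (A 2, true)]]

/-- definition of the automorphisms `10, ..., 50` as words in the previous ones -/
def tD : List (List ℕ) := [
  [6, 16, 7],
  [10, 18, 11],
  [4, 20, 5],
  [8, 20, 9],
  [8, 22, 9],
  [2, 24, 3],
  [8, 24, 9],
  [10, 26, 11],
  [6, 28, 7],
  [0, 30, 1],
  [8, 30, 9],
  [6, 32, 7],
  [10, 32, 11],
  [4, 36, 5],
  [8, 38, 9],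
  [6, 40, 7],
  [10, 40, 11],
  [10, 42, 11],
  [2, 46, 3],
  [6, 48, 7],
  [10, 48, 11],
  [4, 50, 5],
  [10, 50, 11],
  [8, 54, 9],
  [0, 56, 1],
  [4, 58, 5],
  [10, 58, 11],
  [10, 62, 11],
  [8, 64, 9],
  [2, 70, 3],
  [10, 70, 11],
  [8, 72, 9],
  [8, 74, 9],
  [10, 78, 11],
  [8, 80, 9],
  [6, 84, 7],
  [8, 86, 9],
  [6, 88, 7],
  [6, 92, 7],
  [4, 96, 5],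
  [12, 91, 13, 19, 22, 29, 90, 16]]

/-- `tC[x][n]` : the conjugate of the automorphism `8 + n` by the letter `x` (`x < 12`) -/
def tC : List (List (List ℕ)) := [
  [[16], [18], [20], [22], [24], [26], [28], [38], [32], [34], [36], [38, 31, 38], [48], [42],
    [44], [46], [48, 41, 48], [58], [60], [54], [68], [58, 51, 58], [60, 53, 60], [70], [72],
    [66], [68, 57, 68], [70, 63, 70], [72, 65, 72], [80], [82], [78], [80, 75, 80], [82, 77, 82],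
    [88], [86], [88, 85, 88], [94], [92], [94, 91, 94], [96], [98], [100]],
  [[16], [18], [20], [22], [24], [26], [28], [30, 39, 30], [32], [34], [36], [30], [40, 49, 40],
    [42], [44], [46], [40], [50, 59, 50], [52, 61, 52], [54], [56, 69, 56], [50], [52], [62, 71,
    62], [64, 73, 64], [66], [56], [62], [64], [74, 81, 74], [76, 83, 76], [78], [74], [76], [84,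
    89, 84], [86], [84], [90, 95, 90], [92], [90], [96], [98], [100]],
  [[16], [18], [20], [22], [30], [26], [28], [30, 25, 30], [40], [34], [36], [38], [40, 33, 40],
    [50], [52], [56], [48], [50, 43, 50], [52, 45, 52], [64], [56, 47, 56], [58], [60], [62], [64,
    55, 64], [76], [68], [78], [72], [74], [76, 67, 76], [78, 71, 78], [86], [82], [84], [86, 81,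
    86], [92], [90], [92, 89, 92], [96], [96, 95, 96], [98], [100]],
  [[16], [18], [20], [22], [24, 31, 24], [26], [28], [24], [32, 41, 32], [34], [36], [38], [32],
    [42, 51, 42], [44, 53, 44], [46, 57, 46], [48], [42], [44], [54, 65, 54], [46], [58], [60],
    [62], [54], [66, 77, 66], [68], [70, 79, 70], [72], [74], [66], [70], [80, 87, 80], [82],
    [84], [80], [88, 93, 88], [90], [88], [94, 97, 94], [94], [98], [100]],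
  [[16], [18], [24], [22], [24, 21, 24], [32], [28], [30], [32, 27, 32], [44], [46], [38], [40],
    [42], [44, 35, 44], [46, 37, 46], [48], [62], [52], [54], [56], [70], [60], [62, 51, 62],
    [74], [66], [68], [70, 59, 70], [80], [74, 65, 74], [84], [78], [80, 73, 80], [88], [84, 77,
    84], [86], [88, 83, 88], [90], [92], [94], [98], [98, 97, 98], [100]],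
  [[16], [18], [20, 25, 20], [22], [20], [26, 33, 26], [28], [30], [26], [34, 45, 34], [36, 47,
    36], [38], [40], [42], [34], [36], [48], [50, 63, 50], [52], [54], [56], [58, 71, 58], [60],
    [50], [64, 75, 64], [66], [68], [58], [72, 81, 72], [64], [76, 85, 76], [78], [72], [82, 89,
    82], [76], [86], [82], [90], [92], [94], [96, 99, 96], [96], [100]],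
  [[20], [18], [20, 17, 20], [22], [24], [26], [36], [30], [42], [34], [36, 29, 36], [38], [50],
    [42, 33, 42], [54], [46], [58], [50, 41, 50], [64], [54, 45, 54], [56], [58, 49, 58], [72],
    [62], [64, 53, 64], [66], [68], [70], [72, 61, 72], [74], [76], [78], [80], [82], [90], [86],
    [94], [90, 85, 90], [96], [94, 89, 94], [96, 93, 96], [98], [100]],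
  [[16, 21, 16], [18], [16], [22], [24], [26], [28, 37, 28], [30], [32, 43, 32], [34], [28], [38],
    [40, 51, 40], [32], [44, 55, 44], [46], [48, 59, 48], [40], [52, 65, 52], [44], [56], [48],
    [60, 73, 60], [62], [52], [66], [68], [70], [60], [74], [76], [78], [80], [82], [84, 91, 84],
    [86], [88, 95, 88], [84], [92, 97, 92], [88], [92], [98], [100]],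
  [[16], [18], [26], [28], [32], [26, 21, 26], [28, 23, 28], [40], [32, 25, 32], [34], [36], [48],
    [40, 31, 40], [42], [44], [46], [48, 39, 48], [50], [52], [66], [56], [58], [60], [62], [76],
    [66, 55, 66], [68], [70], [82], [84], [76, 65, 76], [78], [88], [82, 73, 82], [84, 75, 84],
    [92], [88, 81, 88], [90], [92, 87, 92], [94], [96], [98], [100]],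
  [[16], [18], [20, 27, 20], [22, 29, 22], [24, 33, 24], [20], [22], [30, 41, 30], [24], [34],
    [36], [38, 49, 38], [30], [42], [44], [46], [38], [50], [52], [54, 67, 54], [56], [58], [60],
    [62], [64, 77, 64], [54], [68], [70], [72, 83, 72], [74, 85, 74], [64], [78], [80, 89, 80],
    [72], [74], [86, 93, 86], [80], [90], [86], [94], [96], [98], [100]],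
  [[16], [22], [20], [22, 19, 22], [24], [34], [28], [30], [44], [34, 27, 34], [36], [38], [52],
    [54], [44, 33, 44], [46], [60], [64], [52, 41, 52], [54, 43, 54], [56], [72], [60, 49, 60],
    [74], [64, 51, 64], [66], [68], [80], [72, 59, 72], [74, 63, 74], [76], [86], [80, 71, 80],
    [82], [84], [86, 79, 86], [88], [90], [92], [94], [96], [98], [100]],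
  [[16], [18, 23, 18], [20], [18], [24], [26, 35, 26], [28], [30], [32, 45, 32], [26], [36], [38],
    [40, 53, 40], [42, 55, 42], [32], [46], [48, 61, 48], [50, 65, 50], [40], [42], [56], [58, 73,
    58], [48], [62, 75, 62], [50], [66], [68], [70, 81, 70], [58], [62], [76], [78, 87, 78], [70],
    [82], [84], [78], [88], [90], [92], [94], [96], [98], [100]]]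

/-- for the letter `T7` (and its inverse): conjugates of the representatives -/
def tR : List (ℕ × List ℕ × List ℕ) := [
  (8, [16], [16]),
  (9, [18], [18]),
  (10, [17, 20], [16, 20]),
  (18, [68, 57, 46, 100], [28, 23, 18, 36, 100]),
  (21, [18, 17, 79], [16, 42, 78, 42, 19]),
  (45, [19, 22, 29, 90, 16, 101], [28, 23, 18, 90, 17, 100]),
  (50, [100], [100])]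

/-- the other generators: `(n, j, m)` means that `n` is the conjugate of `m` by the letter `2 j`
    -/
def tU : List (ℕ × ℕ × ℕ) := [
  (11, 5, 9),
  (12, 2, 10),
  (13, 4, 10),
  (14, 4, 11),
  (15, 1, 12),
  (16, 4, 12),
  (17, 5, 13),
  (19, 0, 15),
  (20, 4, 15),
  (22, 5, 16),
  (23, 2, 18),
  (24, 4, 19),
  (25, 1, 21),
  (26, 5, 20),
  (27, 5, 21),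
  (28, 1, 23),
  (29, 0, 25),
  (30, 5, 24),
  (31, 2, 25),
  (32, 5, 25),
  (33, 4, 27),
  (34, 0, 28),
  (35, 2, 29),
  (36, 5, 29),
  (37, 5, 31),
  (38, 4, 32),
  (39, 1, 35),
  (40, 5, 35),
  (41, 4, 36),
  (42, 4, 37),
  (43, 5, 39),
  (44, 4, 40),
  (46, 4, 43),
  (47, 0, 45),
  (48, 1, 47),
  (49, 2, 48)]

end Pool.Agent.Torelli.H3
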