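import Pool.Agent.Torelli.H3.Data

/-!
# Torelli / H3 / Elem : the automorphisms `E s 0, ..., E s 50`
-/

set_option autoImplicit false

namespace Pool.Agent.Torelli.H3

open Pool.Torelli Pool.Torelli.Refl Gen

/-- image list of the `n`-th automorphism -/
def An (n : ℕ) : List (List ℕ) := tA.getD n []

/-- image list of its inverse -/
def Bn (n : ℕ) : List (List ℕ) := tB.getD n []

open Classical in
/-- the `n`-th automorphism -/
noncomputable def E (s n : ℕ) : MulAut F :=
  if h : ∃ φ, Rep s φ (An n) ∧ Rep s φ⁻¹ (Bn n) then h.choose else 1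

theorem E_spec {s n : ℕ} (h : ∃ φ, Rep s φ (An n) ∧ Rep s φ⁻¹ (Bn n)) :
    Rep s (E s n) (An n) ∧ Rep s (E s n)⁻¹ (Bn n) := by
  unfold E
  rw [dif_pos h]
  exact h.choose_spec

/-- check of the first ten automorphisms -/
def chkBase (n : ℕ) : Bool :=
  (tG.getD n []).all (okG 6) && (invWd (tG.getD n [])).all (okG 6) &&
    beqL (imgWord 6 (tG.getD n [])) (An n) && beqL (imgWord 6 (invWd (tG.getD n []))) (Bn n)

/-- the definition of the `n`-th automorphism in terms of the previous ones -/
def Dn (n : ℕ) : List ℕ := tD.getD (n - 10) []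

/-- check of the others -/
def chkDef (n : ℕ) : Bool :=
  wfW n (Dn n) && wfW n (invW (Dn n)) && beqL (lstW An Bn (Dn n)) (An n) &&
    beqL (lstW An Bn (invW (Dn n))) (Bn n)

theorem base_ok : (List.range 10).all chkBase = true := by decide +kernel

theorem def_ok : (List.range' 10 41).all chkDef = true := by decide +kernel

theorem base_spec (s n : ℕ) (hn : n < 10) : Rep s (evWord s (tG.getD n [])) (An n) ∧
    Rep s (evWord s (tG.getD n []))⁻¹ (Bn n) := by
  have h := List.all_eq_true.1 base_ok n (List.mem_range.2 hn)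
  unfold chkBase at h
  rw [Bool.and_eq_true, Bool.and_eq_true, Bool.and_eq_true] at h
  obtain ⟨⟨⟨h1, h2⟩, h3⟩, h4⟩ := h
  refine ⟨rep_evWord _ _ h1 (beqL_eq _ _ h3), ?_⟩
  rw [← evWord_invWd]
  exact rep_evWord _ _ h2 (beqL_eq _ _ h4)

theorem fam (s : ℕ) : Fam s (E s) An Bn 51 := by
  intro n
  induction n using Nat.strong_induction_on with
  | _ n ih =>
    intro hn
    apply E_spec
    by_cases h10 : n < 10
    · exact ⟨_, base_spec s n h10⟩
    · have hf : Fam s (E s) An Bn n := fun m hm => ih m hm (by omega)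
      have hmem : n ∈ List.range' 10 41 := by
        rw [List.mem_range'_1]; omega
      have h := List.all_eq_true.1 def_ok n hmem
      unfold chkDef at h
      rw [Bool.and_eq_true, Bool.and_eq_true, Bool.and_eq_true] at h
      obtain ⟨⟨⟨h1, h2⟩, h3⟩, h4⟩ := h
      refine ⟨evalW (E s) (Dn n), (hf.word _ h1).cast (beqL_eq _ _ h3), ?_⟩
      rw [← evalW_invW]
      exact (hf.word _ h2).cast (beqL_eq _ _ h4)

/-- an identity between words in the automorphisms, checked by computation -/
def chkW (w1 w2 : List ℕ) : Bool :=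
  wfW 51 w1 && wfW 51 w2 && beqL (lstW An Bn w1) (lstW An Bn w2)

theorem word_eq (s : ℕ) (w1 w2 : List ℕ) (h : chkW w1 w2 = true) :
    evalW (E s) w1 = evalW (E s) w2 := by
  unfold chkW at h
  rw [Bool.and_eq_true, Bool.and_eq_true] at h
  obtain ⟨⟨h1, h2⟩, h3⟩ := h
  exact ((fam s).word w1 h1).eq ((fam s).word w2 h2) (beqL_eq _ _ h3)

theorem E_base (s n : ℕ) (hn : n < 10) : E s n = evWord s (tG.getD n []) :=
  ((fam s) n (by omega)).1.eq (base_spec s n hn).1 rfl

end Pool.Agent.Torelli.H3
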