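import Pool.Agent.Torelli.H3.Check1
import Pool.Agent.Torelli.H3.Check2
import Pool.Agent.Torelli.H3.Check3
import Pool.Agent.Torelli.H3.Check4

/-!
# Torelli / H3 / Normal : the group generated by the automorphisms `8, ..., 50` is normalised
by `M s 3`
-/

set_option autoImplicit false

namespace Pool.Agent.Torelli.H3

open Pool.Torelli Pool.Torelli.Refl Gen

/-- the group generated by the automorphisms `8, ..., 50` -/
noncomputable def J (s : ℕ) : Subgroup (MulAut F) :=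
  Subgroup.closure {φ | ∃ n, 8 ≤ n ∧ n < 51 ∧ φ = E s n}

theorem E_mem_J {s n : ℕ} (h1 : 8 ≤ n) (h2 : n < 51) : E s n ∈ J s :=
  Subgroup.subset_closure ⟨n, h1, h2, rfl⟩

theorem evalL_mem {G : Type*} [Group G] {K : Subgroup G} {e : ℕ → G} {x : ℕ}
    (h : e (x / 2) ∈ K) : evalL e x ∈ K := by
  unfold evalL
  cases Nat.beq (x % 2) 0
  · exact K.inv_mem h
  · exact h

theorem evalW_mem {G : Type*} [Group G] {K : Subgroup G} {e : ℕ → G} (w : List ℕ)
    (h : ∀ x ∈ w, e (x / 2) ∈ K) : evalW e w ∈ K := by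
  induction w with
  | nil => exact K.one_mem
  | cons x w ih =>
    rw [evalW_cons]
    exact K.mul_mem (evalL_mem (h x List.mem_cons_self))
      (ih fun y hy => h y (List.mem_cons_of_mem _ hy))

theorem word_mem_J {s : ℕ} {w : List ℕ} (h : inJ w = true) : evalW (E s) w ∈ J s := by
  apply evalW_mem
  intro x hx
  have h1 := List.all_eq_true.1 h x hx
  rw [Bool.and_eq_true] at h1
  have h2 : 16 ≤ x := Nat.le_of_ble_eq_true h1.1
  have h3 : x < 102 := Nat.le_of_ble_eq_true h1.2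
  exact E_mem_J (by omega) (by omega)

theorem conj_of_chkC {s x n : ℕ} {w : List ℕ} (h : chkC x n w = true) :
    evalL (E s) x * E s n * (evalL (E s) x)⁻¹ ∈ J s := by
  unfold chkC at h
  rw [Bool.and_eq_true] at h
  have h1 := word_eq s _ _ h.2
  rw [evalW_cons, evalW_cons, evalW_cons, evalW_nil, mul_one, evalL_even, evalL_invL] at h1
  rw [mul_assoc, h1]
  exact word_mem_J h.1

/-- `x` conjugates `J s` into itself if it conjugates the generators into `J s` -/
theorem conj_le {s : ℕ} {t : MulAut F} (h : ∀ n, 8 ≤ n → n < 51 → t * E s n * t⁻¹ ∈ J s) :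
    ∀ y ∈ J s, t * y * t⁻¹ ∈ J s := by
  have : J s ≤ (J s).comap (MulAut.conj t).toMonoidHom := by
    conv_lhs => unfold J
    rw [Subgroup.closure_le]
    rintro φ ⟨n, h1, h2, rfl⟩
    exact h n h1 h2
  exact this

theorem mem_normalizer_of {s : ℕ} {t : MulAut F}
    (h1 : ∀ n, 8 ≤ n → n < 51 → t * E s n * t⁻¹ ∈ J s)
    (h2 : ∀ n, 8 ≤ n → n < 51 → t⁻¹ * E s n * t⁻¹⁻¹ ∈ J s) :
    t ∈ Subgroup.normalizer (J s : Set (MulAut F)) := by
  rw [Subgroup.mem_normalizer_iff]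
  intro y
  constructor
  · exact conj_le h1 y
  · intro hy
    have := conj_le h2 _ hy
    have e : t⁻¹ * (t * y * t⁻¹) * t⁻¹⁻¹ = y := by group
    rwa [e] at this

theorem row_conj {s x : ℕ} (h : chkRow x = true) (n : ℕ) (h1 : 8 ≤ n) (h2 : n < 51) :
    evalL (E s) x * E s n * (evalL (E s) x)⁻¹ ∈ J s := by
  unfold chkRow at h
  have h3 := List.all_eq_true.1 h (n - 8) (List.mem_range.2 (by omega))
  have e : 8 + (n - 8) = n := by omega
  simp only [e] at h3
  exact conj_of_chkC h3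

theorem letter_norm {s j : ℕ} (h : chkRow (2 * j) = true) (h' : chkRow (2 * j + 1) = true) :
    E s j ∈ Subgroup.normalizer (J s : Set (MulAut F)) := by
  apply mem_normalizer_of
  · intro n h1 h2
    have := row_conj (s := s) h n h1 h2
    rwa [evalL_even] at this
  · intro n h1 h2
    have := row_conj (s := s) h' n h1 h2
    rwa [evalL_odd] at this

theorem norm_lt6 (s j : ℕ) (hj : j < 6) : E s j ∈ Subgroup.normalizer (J s : Set (MulAut F)) := by
  interval_cases j
  · exact letter_norm row0 row1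
  · exact letter_norm row2 row3
  · exact letter_norm row4 row5
  · exact letter_norm row6 row7
  · exact letter_norm row8 row9
  · exact letter_norm row10 row11

theorem norm6 (s : ℕ) : E s 6 ∈ Subgroup.normalizer (J s : Set (MulAut F)) := by
  have key : ∀ n, 8 ≤ n → n < 51 → E s 6 * E s n * (E s 6)⁻¹ ∈ J s ∧
      (E s 6)⁻¹ * E s n * (E s 6)⁻¹⁻¹ ∈ J s := by
    intro n
    induction n using Nat.strong_induction_on with
    | _ n ih =>
      intro h1 h2
      have hc := List.all_eq_true.1 cover n (by rw [List.mem_range'_1]; omega)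
      rw [Bool.or_eq_true, List.any_eq_true, List.any_eq_true] at hc
      rcases hc with ⟨t, ht, hn⟩ | ⟨t, ht, hn⟩
      · have hn' : t.1 = n := Nat.eq_of_beq_eq_true hn
        have h3 := List.all_eq_true.1 tR_ok t ht
        rw [Bool.and_eq_true, hn'] at h3
        have h4 := conj_of_chkC (s := s) h3.1
        have h5 := conj_of_chkC (s := s) h3.2
        rw [show (12 : ℕ) = 2 * 6 from rfl, evalL_even] at h4
        rw [show (13 : ℕ) = 2 * 6 + 1 from rfl, evalL_odd] at h5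
        exact ⟨h4, h5⟩
      · have hn' : t.1 = n := Nat.eq_of_beq_eq_true hn
        have h3 := List.all_eq_true.1 tU_ok t ht
        unfold chkU at h3
        simp only [Bool.and_eq_true] at h3
        obtain ⟨⟨⟨⟨⟨_, h4⟩, h5⟩, h6⟩, h7⟩, h8⟩ := h3
        have h4' : t.2.2 < t.1 := Nat.le_of_ble_eq_true h4
        have h5' : 8 ≤ t.2.2 := Nat.le_of_ble_eq_true h5
        have h6' : t.2.1 ≤ 5 := Nat.le_of_ble_eq_true h6
        have e1 := word_eq s _ _ h7
        have e2 := word_eq s _ _ h8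
        simp only [evalW_cons, evalW_nil, mul_one, evalL_even, evalL_odd] at e1 e2
        rw [show (12 : ℕ) = 2 * 6 from rfl, evalL_even] at e2
        obtain ⟨i1, i2⟩ := ih t.2.2 (by omega) h5' (by omega)
        have hN := norm_lt6 s t.2.1 (by omega)
        rw [Subgroup.mem_normalizer_iff] at hN
        rw [hn'] at e1
        have c1 := (hN _).1 i1
        have c2 := (hN _).1 i2
        have e3 : E s 6 * E s t.2.1 = E s t.2.1 * E s 6 := e2.symm
        have e4 : (E s 6)⁻¹ * E s t.2.1 = E s t.2.1 * (E s 6)⁻¹ := by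
          rw [inv_mul_eq_iff_eq_mul, ← mul_assoc, e3]; group
        have f1 : E s t.2.1 * (E s 6 * E s t.2.2 * (E s 6)⁻¹) * (E s t.2.1)⁻¹ =
            E s 6 * E s n * (E s 6)⁻¹ := by
          rw [← e1]
          calc E s t.2.1 * (E s 6 * E s t.2.2 * (E s 6)⁻¹) * (E s t.2.1)⁻¹
              = (E s t.2.1 * E s 6) * E s t.2.2 * (E s t.2.1 * E s 6)⁻¹ := by group
            _ = (E s 6 * E s t.2.1) * E s t.2.2 * (E s 6 * E s t.2.1)⁻¹ := by rw [e3]
            _ = E s 6 * (E s t.2.1 * (E s t.2.2 * (E s t.2.1)⁻¹)) * (E s 6)⁻¹ := by group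
        have f2 : E s t.2.1 * ((E s 6)⁻¹ * E s t.2.2 * (E s 6)⁻¹⁻¹) * (E s t.2.1)⁻¹ =
            (E s 6)⁻¹ * E s n * (E s 6)⁻¹⁻¹ := by
          rw [← e1]
          calc E s t.2.1 * ((E s 6)⁻¹ * E s t.2.2 * (E s 6)⁻¹⁻¹) * (E s t.2.1)⁻¹
              = (E s t.2.1 * (E s 6)⁻¹) * E s t.2.2 * (E s t.2.1 * (E s 6)⁻¹)⁻¹ := by group
            _ = ((E s 6)⁻¹ * E s t.2.1) * E s t.2.2 * ((E s 6)⁻¹ * E s t.2.1)⁻¹ := by rw [e4]
            _ = (E s 6)⁻¹ * (E s t.2.1 * (E s t.2.2 * (E s t.2.1)⁻¹)) * (E s 6)⁻¹⁻¹ := by group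
        rw [f1] at c1
        rw [f2] at c2
        exact ⟨c1, c2⟩
  exact mem_normalizer_of (fun n h1 h2 => (key n h1 h2).1) (fun n h1 h2 => (key n h1 h2).2)

theorem norm7 (s : ℕ) : E s 7 ∈ Subgroup.normalizer (J s : Set (MulAut F)) := by
  have h := word_eq s _ _ T8_ok
  have hg : evalW (E s) gT8 ∈ Subgroup.normalizer (J s : Set (MulAut F)) := by
    apply evalW_mem
    intro x hx
    have : x / 2 < 7 := by
      unfold gT8 at hx
      simp only [List.mem_cons, List.not_mem_nil, or_false] at hx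
      omega
    by_cases h6 : x / 2 < 6
    · exact norm_lt6 s _ h6
    · have : x / 2 = 6 := by omega
      rw [this]
      exact norm6 s
  rw [evalW_cons, evalW_append, evalW_cons, evalW_nil, mul_one, show (14 : ℕ) = 2 * 7 from rfl,
    show (12 : ℕ) = 2 * 6 from rfl, evalL_even, evalL_even] at h
  have e : E s 7 = evalW (E s) gT8 * E s 6 * (evalW (E s) gT8)⁻¹ := by
    rw [← h]; group
  rw [e]
  exact mul_mem (mul_mem hg (norm6 s)) (inv_mem hg)

theorem norm_lt8 (s j : ℕ) (hj : j < 8) : E s j ∈ Subgroup.normalizer (J s : Set (MulAut F)) := by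
  rcases lt_or_ge j 6 with h | h
  · exact norm_lt6 s j h
  · rcases eq_or_lt_of_le h with h | h
    · rw [← h]; exact norm6 s
    · have : j = 7 := by omega
      rw [this]; exact norm7 s

/-! ## The generators of `M s 3` -/

theorem Ta0_eq (s : ℕ) : Ta s = (E s 0)⁻¹ := by
  rw [E_base s 0 (by omega)]
  simp [tG, evL, Gen.ev]
theorem Ta1_eq (s : ℕ) : Ta (s + 1) = (E s 6)⁻¹ := by
  rw [E_base s 6 (by omega)]
  simp [tG, evL, Gen.ev]
theorem Ta2_eq (s : ℕ) : Ta (s + 2) = (E s 7)⁻¹ := by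
  rw [E_base s 7 (by omega)]
  simp [tG, evL, Gen.ev]
theorem Tb0_eq (s : ℕ) : Tb s = E s 1 := by
  rw [E_base s 1 (by omega)]
  simp [tG, evL, Gen.ev]
theorem Tb1_eq (s : ℕ) : Tb (s + 1) = E s 3 := by
  rw [E_base s 3 (by omega)]
  simp [tG, evL, Gen.ev]
theorem Tb2_eq (s : ℕ) : Tb (s + 2) = E s 5 := by
  rw [E_base s 5 (by omega)]
  simp [tG, evL, Gen.ev]
theorem P0_eq (s : ℕ) : P s = E s 0 * E s 6 * (E s 2)⁻¹ := by
  have h1 := Ta0_eq s
  have h2 := Ta1_eq s
  have h3 : E s 2 = (P s)⁻¹ * (Ta s)⁻¹ * (Ta (s + 1))⁻¹ := by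
    rw [E_base s 2 (by omega)]
    simp [tG, evL, Gen.ev, mul_assoc]
  rw [h3, h1, h2]
  rw [inv_inv, inv_inv, mul_inv_rev, mul_inv_rev, inv_inv]
  group
theorem P1_eq (s : ℕ) : P (s + 1) = E s 6 * E s 7 * (E s 4)⁻¹ := by
  have h1 := Ta1_eq s
  have h2 := Ta2_eq s
  have h3 : E s 4 = (P (s + 1))⁻¹ * (Ta (s + 1))⁻¹ * (Ta (s + 2))⁻¹ := by
    rw [E_base s 4 (by omega)]
    simp [tG, evL, Gen.ev, mul_assoc]
  rw [h3, h1, h2]
  rw [inv_inv, inv_inv, mul_inv_rev, mul_inv_rev, inv_inv]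
  group

/-- `J s` is normalised by `M s 3` -/
theorem M_le_norm (s : ℕ) : M s 3 ≤ Subgroup.normalizer (J s : Set (MulAut F)) := by
  apply M_le
  · intro i h1 h2
    obtain rfl | rfl | rfl : i = s ∨ i = s + 1 ∨ i = s + 2 := by omega
    · rw [Ta0_eq]; exact inv_mem (norm_lt8 _ 0 (by omega))
    · rw [Ta1_eq]; exact inv_mem (norm_lt8 _ 6 (by omega))
    · rw [Ta2_eq]; exact inv_mem (norm_lt8 _ 7 (by omega))
  · intro i h1 h2
    obtain rfl | rfl | rfl : i = s ∨ i = s + 1 ∨ i = s + 2 := by omega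
    · rw [Tb0_eq]; exact norm_lt8 _ 1 (by omega)
    · rw [Tb1_eq]; exact norm_lt8 _ 3 (by omega)
    · rw [Tb2_eq]; exact norm_lt8 _ 5 (by omega)
  · intro i h1 h2
    obtain rfl | rfl : i = s ∨ i = s + 1 := by omega
    · rw [P0_eq]
      exact mul_mem (mul_mem (norm_lt8 _ 0 (by omega)) (norm_lt8 _ 6 (by omega)))
        (inv_mem (norm_lt8 _ 2 (by omega)))
    · rw [P1_eq]
      exact mul_mem (mul_mem (norm_lt8 _ 6 (by omega)) (norm_lt8 _ 7 (by omega)))
        (inv_mem (norm_lt8 _ 4 (by omega)))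

end Pool.Agent.Torelli.H3
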