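import Pool.Agent.Torelli.ReflAut
import Pool.Agent.Torelli.Basic

/-!
# Torelli / H3 / Rep : automorphisms of a block of three handles given by image lists

`Rep s φ L` : `φ ∈ M s 3` acts on the six letters of the handles `s, s+1, s+2` by the image
list `L`.  Such a `φ` is determined by `L`.
-/

set_option autoImplicit false

namespace Pool.Agent.Torelli.H3

open Pool.Torelli Pool.Torelli.Refl

/-- `φ ∈ M s 3` acts on the letters of the block by the list `L` -/
structure Rep (s : ℕ) (φ : MulAut F) (L : List (List ℕ)) : Prop where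
  mem : φ ∈ M s 3
  imp : Implements (eS s) (eS s) 6 ((φ : MulAut F) : F →* F) L
  wf1 : wf 6 L = true

theorem Rep.one (s : ℕ) : Rep s 1 [[0], [2], [4], [6], [8], [10]] := by
  refine ⟨(M s 3).one_mem, ?_, by decide +kernel⟩
  intro i hi
  have : ∀ j < 6, ([[0], [2], [4], [6], [8], [10]] : List (List ℕ)).getD j [] = [2 * j] := by
    decide +kernel
  rw [this i hi]
  simp [evalL_even]

theorem Rep.mul {s : ℕ} {φ ψ : MulAut F} {L N : List (List ℕ)} (h1 : Rep s φ L) (h2 : Rep s ψ N) :
    Rep s (φ * ψ) (comp L N) := by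
  refine ⟨(M s 3).mul_mem h1.mem h2.mem, ?_, wf_comp 6 L N h1.wf1 h2.wf1⟩
  have h3 := h1.imp.comp h2.imp h2.wf1
  intro n hn
  rw [← h3 n hn]
  rfl

theorem Rep.eq {s : ℕ} {φ ψ : MulAut F} {L N : List (List ℕ)} (h1 : Rep s φ L) (h2 : Rep s ψ N)
    (h : L = N) : φ = ψ := by
  apply aut_ext_of
  intro n
  by_cases hn : n < 2 * s ∨ 2 * (s + 3) ≤ n
  · rw [M_fix_of h1.mem hn, M_fix_of h2.mem hn]
  · obtain ⟨k, rfl⟩ : ∃ k, n = 2 * s + k := ⟨n - 2 * s, by omega⟩
    exact Implements.agree h1.imp h2.imp h k (by omega)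

theorem Rep.cast {s : ℕ} {φ : MulAut F} {L N : List (List ℕ)} (h1 : Rep s φ L) (h : L = N) :
    Rep s φ N := h ▸ h1

/-- if `L ∘ N` is the identity list then the inverse of `φ` is given by `N` -/
theorem rep_evWord {s : ℕ} (w : List (Gen × Bool)) (L : List (List ℕ))
    (hw : w.all (okG 6) = true) (h : imgWord 6 w = L) : Rep s (evWord s w) L := by
  subst h
  refine ⟨evWord_mem_M s 3 w hw, implements_evWord s 6 w hw, wf_imgWord 6 w hw⟩

/-! ## Boolean comparison of lists -/

/-- comparison of words -/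
def beqW : List ℕ → List ℕ → Bool
  | [], [] => true
  | x :: u, y :: v => bif Nat.beq x y then beqW u v else false
  | [], _ :: _ => false
  | _ :: _, [] => false

/-- comparison of lists of words -/
def beqL : List (List ℕ) → List (List ℕ) → Bool
  | [], [] => true
  | x :: u, y :: v => bif beqW x y then beqL u v else false
  | [], _ :: _ => false
  | _ :: _, [] => false

theorem beqW_eq : ∀ (u v : List ℕ), beqW u v = true → u = v
  | [], [], _ => rfl
  | x :: u, y :: v, h => by
    unfold beqW at h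
    cases hb : Nat.beq x y
    · simp [hb] at h
    · rw [hb, cond_true] at h
      rw [Nat.eq_of_beq_eq_true hb, beqW_eq u v h]
  | [], _ :: _, h => by simp [beqW] at h
  | _ :: _, [], h => by simp [beqW] at h

theorem beqL_eq : ∀ (u v : List (List ℕ)), beqL u v = true → u = v
  | [], [], _ => rfl
  | x :: u, y :: v, h => by
    unfold beqL at h
    cases hb : beqW x y
    · simp [hb] at h
    · rw [hb, cond_true] at h
      rw [beqW_eq _ _ hb, beqL_eq u v h]
  | [], _ :: _, h => by simp [beqL] at h
  | _ :: _, [], h => by simp [beqL] at h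

/-! ## Words in a family of automorphisms -/

/-- `K n` and its inverse are given by the lists `A n` and `A' n` -/
def Fam (s : ℕ) (K : ℕ → MulAut F) (A A' : ℕ → List (List ℕ)) (N : ℕ) : Prop :=
  ∀ n < N, Rep s (K n) (A n) ∧ Rep s (K n)⁻¹ (A' n)

/-- the list of a letter -/
def lstL (A A' : ℕ → List (List ℕ)) (x : ℕ) : List (List ℕ) :=
  bif Nat.beq (x % 2) 0 then A (x / 2) else A' (x / 2)

/-- the list of a word -/
def lstW (A A' : ℕ → List (List ℕ)) : List ℕ → List (List ℕ)
  | [] => [[0], [2], [4], [6], [8], [10]]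
  | x :: w => bif w.isEmpty then lstL A A' x else comp (lstL A A' x) (lstW A A' w)

theorem Fam.letter {s : ℕ} {K : ℕ → MulAut F} {A A' : ℕ → List (List ℕ)} {N : ℕ}
    (h : Fam s K A A' N) {x : ℕ} (hx : x < 2 * N) : Rep s (evalL K x) (lstL A A' x) := by
  unfold evalL lstL
  cases Nat.beq (x % 2) 0
  · exact (h (x / 2) (by omega)).2
  · exact (h (x / 2) (by omega)).1

theorem Fam.word {s : ℕ} {K : ℕ → MulAut F} {A A' : ℕ → List (List ℕ)} {N : ℕ}
    (h : Fam s K A A' N) (w : List ℕ) (hw : wfW N w = true) :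
    Rep s (evalW K w) (lstW A A' w) := by
  induction w with
  | nil => exact Rep.one s
  | cons x w ih =>
    have hx : ∀ y ∈ x :: w, y < 2 * N := (wfW_iff N _).1 hw
    have hw' : wfW N w = true := (wfW_iff N _).2 fun y hy => hx y (List.mem_cons_of_mem _ hy)
    have h1 := h.letter (hx x List.mem_cons_self)
    unfold lstW
    rw [evalW_cons]
    cases w with
    | nil => simpa using h1
    | cons y w => exact h1.mul (ih hw')

end Pool.Agent.Torelli.H3
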